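import Pool.Agent.SOV.Ex
import Pool.Agent.SOS.OrdList

/-! Project SOV, module Val: structures for the part of a graph given by a list of vertices, in this order. -/

set_option autoImplicit false

namespace Pool.Agent.SOV

open Pool.Agent.SOC Pool.Agent.SOD Pool.Agent.SOS Pool.Agent.RUP Pool.Agent.SOF

variable {V V' : Type} {G : SimpleGraph V} {G' : SimpleGraph V'}

/-- transport of structures along a map which is injective on `S` -/
theorem qt_push {S : Set V'} {f : V' → V} (hf : Set.InjOn f S)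
    (hadj : ∀ a ∈ S, ∀ b ∈ S, (G'.Adj a b ↔ G.Adj (f a) (f b))) {cr' : V' → V' → V' → V' → Prop}
    {cr : V → V → V → V → Prop}
    (hcr : ∀ a ∈ S, ∀ b ∈ S, ∀ c ∈ S, ∀ d ∈ S, a ≠ b → c ≠ d → a ≠ c → a ≠ d → b ≠ c → b ≠ d →
      (cr' a b c d ↔ cr (f a) (f b) (f c) (f d))) :
    (∃ T', QT (restr G' S) cr' T') ↔ ∃ T, QT (restr G (f '' S)) cr T := by
  constructor
  · rintro ⟨T', h⟩
    have hm : ∀ {a b c d : V'}, T' a b c d → a ∈ S ∧ b ∈ S ∧ c ∈ S ∧ d ∈ S := fun h1 =>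
      ⟨(h.adj h1).2.1, (h.adj (h.swap₁ h1)).2.1, (h.adj h1).2.2, (h.adj (h.swap₂ (h.swap₁ (h.swap₂ h1)))).2.2⟩
    have hne : ∀ {a b c d : V'}, T' a b c d → a ≠ b ∧ c ≠ d ∧ a ≠ c ∧ a ≠ d ∧ b ≠ c ∧ b ≠ d := fun h1 =>
      ⟨h.ne h1, h.ne (h.swap₂ h1), (h.adj h1).ne, (h.adj (h.swap₂ (h.swap₁ (h.swap₂ h1)))).ne,
        (h.adj (h.swap₁ h1)).ne, (h.adj (h.swap₁ (h.swap₂ (h.swap₁ (h.swap₂ h1))))).ne⟩
    have inj : ∀ {a b : V'}, a ∈ S → b ∈ S → f a = f b → a = b := fun ha hb he => hf ha hb he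
    refine ⟨fun x y z w => ∃ a b c d, T' a b c d ∧ f a = x ∧ f b = y ∧ f c = z ∧ f d = w, ?_, ?_, ?_, ?_, ?_, ?_, ?_,
      ?_, ?_⟩
    · rintro x y z w ⟨a, b, c, d, h1, rfl, rfl, rfl, rfl⟩
      exact ⟨b, a, c, d, h.swap₁ h1, rfl, rfl, rfl, rfl⟩
    · rintro x y z w ⟨a, b, c, d, h1, rfl, rfl, rfl, rfl⟩
      exact ⟨c, d, a, b, h.swap₂ h1, rfl, rfl, rfl, rfl⟩
    · rintro x y z w ⟨a, b, c, d, h1, rfl, rfl, rfl, rfl⟩
      obtain ⟨m1, m2, m3, m4⟩ := hm h1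
      exact fun e => h.ne h1 (inj m1 m2 e)
    · rintro x y z w ⟨a, b, c, d, h1, rfl, rfl, rfl, rfl⟩
      obtain ⟨m1, m2, m3, m4⟩ := hm h1
      exact ⟨(hadj a m1 c m3).1 (h.adj h1).1, ⟨a, m1, rfl⟩, ⟨c, m3, rfl⟩⟩
    · rintro x y z w ⟨a, b, c, d, h1, rfl, rfl, rfl, rfl⟩ h2
      obtain ⟨m1, m2, m3, m4⟩ := hm h1
      obtain ⟨n1, n2, n3, n4, n5, n6⟩ := hne h1
      exact h.nocross h1 ((hcr a m1 b m2 c m3 d m4 n1 n2 n3 n4 n5 n6).2 h2)
    · rintro x y z w ⟨e1, ⟨a, m1, rfl⟩, ⟨c, m3, rfl⟩⟩ ⟨e2, ⟨b, m2, rfl⟩, ⟨d, m4, rfl⟩⟩ n1 n2 n3 n4 hx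
      have g1 := (hadj a m1 c m3).2 e1
      have g2 := (hadj b m2 d m4).2 e2
      have k1 : a ≠ b := fun e => n1 (by rw [e])
      have k2 : a ≠ d := fun e => n2 (by rw [e])
      have k3 : b ≠ c := fun e => n3 (by rw [e])
      have k4 : c ≠ d := fun e => n4 (by rw [e])
      rcases h.some ⟨g1, m1, m3⟩ ⟨g2, m2, m4⟩ k1 k2 k3 k4
        ((hcr a m1 c m3 b m2 d m4 g1.ne g2.ne k1 k2 k3.symm k4).2 hx) with h1 | h1
      · exact Or.inl ⟨a, b, c, d, h1, rfl, rfl, rfl, rfl⟩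
      · exact Or.inr ⟨a, d, b, c, h1, rfl, rfl, rfl, rfl⟩
    · rintro x y z w ⟨a, b, c, d, h1, rfl, rfl, rfl, rfl⟩ ⟨a', d', b', c', h2, e1, e2, e3, e4⟩
      obtain ⟨m1, m2, m3, m4⟩ := hm h1
      obtain ⟨k1, k2, k3, k4⟩ := hm h2
      obtain rfl := inj k1 m1 e1
      obtain rfl := inj k2 m4 e2
      obtain rfl := inj k3 m2 e3
      obtain rfl := inj k4 m3 e4
      exact h.notboth h1 h2
    · rintro u w x y z ⟨a, b, c, d, h1, rfl, rfl, rfl, rfl⟩ ⟨a', b', d', e, h2, e1, e2, e3, rfl⟩ hne'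
      obtain ⟨m1, m2, m3, m4⟩ := hm h1
      obtain ⟨k1, k2, k3, k4⟩ := hm h2
      obtain rfl := inj k1 m1 e1
      obtain rfl := inj k2 m2 e2
      obtain rfl := inj k3 m4 e3
      exact ⟨_, _, _, _, h.trans h1 h2 (fun e => hne' (by rw [e])), rfl, rfl, rfl, rfl⟩
    · rintro a b x y x' y' ⟨a1, x1, b1, y1, h1, rfl, rfl, rfl, rfl⟩ ⟨a2, x2, b2, y2, h2, e1, rfl, e3, rfl⟩
      obtain ⟨m1, m2, m3, m4⟩ := hm h1
      obtain ⟨k1, k2, k3, k4⟩ := hm h2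
      obtain rfl := inj k1 m1 e1
      obtain rfl := inj k3 m3 e3
      rcases h.ferrers h1 h2 with h3 | h3
      · exact Or.inl ⟨_, _, _, _, h3, rfl, rfl, rfl, rfl⟩
      · exact Or.inr ⟨_, _, _, _, h3, rfl, rfl, rfl, rfl⟩
  · rintro ⟨T, h⟩
    refine ⟨fun a b c d => (a ∈ S ∧ b ∈ S ∧ c ∈ S ∧ d ∈ S) ∧ T (f a) (f b) (f c) (f d), ?_, ?_, ?_, ?_, ?_, ?_, ?_,
      ?_, ?_⟩
    · rintro a b c d ⟨⟨m1, m2, m3, m4⟩, h1⟩
      exact ⟨⟨m2, m1, m3, m4⟩, h.swap₁ h1⟩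
    · rintro a b c d ⟨⟨m1, m2, m3, m4⟩, h1⟩
      exact ⟨⟨m3, m4, m1, m2⟩, h.swap₂ h1⟩
    · rintro a b c d ⟨⟨m1, m2, m3, m4⟩, h1⟩ e
      exact h.ne h1 (by rw [e])
    · rintro a b c d ⟨⟨m1, m2, m3, m4⟩, h1⟩
      exact ⟨(hadj a m1 c m3).2 (h.adj h1).1, m1, m3⟩
    · rintro a b c d ⟨⟨m1, m2, m3, m4⟩, h1⟩ h2
      have nf : ∀ {a b : V'}, f a ≠ f b → a ≠ b := fun h e => h (by rw [e])
      have q1 := h.swap₂ (h.swap₁ (h.swap₂ h1))
      exact h.nocross h1 ((hcr a m1 b m2 c m3 d m4 (nf (h.ne h1)) (nf (h.ne (h.swap₂ h1))) (nf (h.adj h1).ne)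
        (nf (h.adj q1).ne) (nf (h.adj (h.swap₁ h1)).ne) (nf (h.adj (h.swap₁ q1)).ne)).1 h2)
    · rintro a b c d ⟨e1, m1, m3⟩ ⟨e2, m2, m4⟩ n1 n2 n3 n4 hx
      rcases h.some (a := f a) (b := f b) (c := f c) (d := f d) ⟨(hadj a m1 c m3).1 e1, ⟨a, m1, rfl⟩, ⟨c, m3, rfl⟩⟩
        ⟨(hadj b m2 d m4).1 e2, ⟨b, m2, rfl⟩, ⟨d, m4, rfl⟩⟩ (fun e => n1 (hf m1 m2 e)) (fun e => n2 (hf m1 m4 e))
        (fun e => n3 (hf m2 m3 e)) (fun e => n4 (hf m3 m4 e))
        ((hcr a m1 c m3 b m2 d m4 e1.ne e2.ne n1 n2 n3.symm n4).1 hx) with h1 | h1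
      · exact Or.inl ⟨⟨m1, m2, m3, m4⟩, h1⟩
      · exact Or.inr ⟨⟨m1, m4, m2, m3⟩, h1⟩
    · rintro a b c d ⟨⟨m1, m2, m3, m4⟩, h1⟩ ⟨_, h2⟩
      exact h.notboth h1 h2
    · rintro u w x y z ⟨⟨m1, m2, m3, m4⟩, h1⟩ ⟨⟨_, _, _, k4⟩, h2⟩ hne'
      exact ⟨⟨m1, m2, m3, k4⟩, h.trans h1 h2 (fun e => hne' (hf m3 k4 e))⟩
    · rintro a b x y x' y' ⟨⟨m1, m2, m3, m4⟩, h1⟩ ⟨⟨_, k2, _, k4⟩, h2⟩
      rcases h.ferrers h1 h2 with h3 | h3
      · exact Or.inl ⟨⟨m1, m2, m3, k4⟩, h3⟩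
      · exact Or.inr ⟨⟨m1, k2, m3, m4⟩, h3⟩

/-- a smaller set -/
theorem qt_restr {S S' : Set V} (hS : S' ⊆ S) {cr : V → V → V → V → Prop} (h : ∃ T, QT (restr G S) cr T) :
    ∃ T, QT (restr G S') cr T := by
  obtain ⟨T, h⟩ := h
  refine ⟨fun a b c d => (a ∈ S' ∧ b ∈ S' ∧ c ∈ S' ∧ d ∈ S') ∧ T a b c d, ?_, ?_, ?_, ?_, ?_, ?_, ?_, ?_, ?_⟩
  · rintro a b c d ⟨⟨m1, m2, m3, m4⟩, h1⟩
    exact ⟨⟨m2, m1, m3, m4⟩, h.swap₁ h1⟩
  · rintro a b c d ⟨⟨m1, m2, m3, m4⟩, h1⟩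
    exact ⟨⟨m3, m4, m1, m2⟩, h.swap₂ h1⟩
  · rintro a b c d ⟨⟨m1, m2, m3, m4⟩, h1⟩
    exact h.ne h1
  · rintro a b c d ⟨⟨m1, m2, m3, m4⟩, h1⟩
    exact ⟨(h.adj h1).1, m1, m3⟩
  · rintro a b c d ⟨⟨m1, m2, m3, m4⟩, h1⟩
    exact h.nocross h1
  · rintro a b c d ⟨e1, m1, m3⟩ ⟨e2, m2, m4⟩ n1 n2 n3 n4 hx
    rcases h.some (a := a) (b := b) (c := c) (d := d) ⟨e1, hS m1, hS m3⟩ ⟨e2, hS m2, hS m4⟩ n1 n2 n3 n4 hx with h1 | h1
    · exact Or.inl ⟨⟨m1, m2, m3, m4⟩, h1⟩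
    · exact Or.inr ⟨⟨m1, m4, m2, m3⟩, h1⟩
  · rintro a b c d ⟨⟨m1, m2, m3, m4⟩, h1⟩ ⟨_, h2⟩
    exact h.notboth h1 h2
  · rintro u w x y z ⟨⟨m1, m2, m3, m4⟩, h1⟩ ⟨⟨_, _, _, k4⟩, h2⟩ hne'
    exact ⟨⟨m1, m2, m3, k4⟩, h.trans h1 h2 hne'⟩
  · rintro a b x y x' y' ⟨⟨m1, m2, m3, m4⟩, h1⟩ ⟨⟨_, k2, _, k4⟩, h2⟩
    rcases h.ferrers h1 h2 with h3 | h3
    · exact Or.inl ⟨⟨m1, m2, m3, k4⟩, h3⟩
    · exact Or.inr ⟨⟨m1, k2, m3, m4⟩, h3⟩

variable [DecidableEq V] [DecidableEq V']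

/-- the graph induced by the vertices of the list has a structure for the cyclic order of the list -/
def Val (G : SimpleGraph V) (l : List V) : Prop := ∃ T, QT (restr G {v | v ∈ l}) (Cross l) T

/-- crossing chords depend only on the order of the positions -/
theorem cross_of_lt {l : List V} {l' : List V'} {S : Set V'} {f : V' → V}
    (h : ∀ a ∈ S, ∀ b ∈ S, (l'.idxOf a < l'.idxOf b ↔ l.idxOf (f a) < l.idxOf (f b))) {a b c d : V'}
    (ha : a ∈ S) (hb : b ∈ S) (hc : c ∈ S) (hd : d ∈ S) : Cross l' a b c d ↔ Cross l (f a) (f b) (f c) (f d) := by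
  unfold Cross SOC.Btw
  rw [h a ha c hc, h c hc b hb, h b hb c hc, h c hc a ha, h a ha d hd, h d hd b hb, h b hb d hd, h d hd a ha]

theorem idxOf_map_of {l : List V'} {f : V' → V} (hf : ∀ x ∈ l, ∀ y ∈ l, f x = f y → x = y) {a : V'} (ha : a ∈ l) :
    (l.map f).idxOf (f a) = l.idxOf a := by
  induction l with
  | nil => exact absurd ha List.not_mem_nil
  | cons b l ih =>
    rw [List.map_cons]
    by_cases hb : b = a
    · subst hb
      rw [List.idxOf_cons_self, List.idxOf_cons_self]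
    · have h1 : f b ≠ f a := fun e => hb (hf b List.mem_cons_self a ha e)
      rw [List.idxOf_cons_ne _ h1, List.idxOf_cons_ne _ hb, ih (fun x hx y hy => hf x (List.mem_cons_of_mem _ hx) y
        (List.mem_cons_of_mem _ hy)) (by
          rcases List.mem_cons.1 ha with h2 | h2
          · exact absurd h2.symm hb
          · exact h2)]

/-- transport along a map which is injective on the list and preserves adjacency inside the list -/
theorem Val_map {l : List V'} {f : V' → V} (hf : ∀ x ∈ l, ∀ y ∈ l, f x = f y → x = y)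
    (hadj : ∀ a ∈ l, ∀ b ∈ l, (G'.Adj a b ↔ G.Adj (f a) (f b))) : Val G' l ↔ Val G (l.map f) := by
  have e : {v | v ∈ l.map f} = f '' {v | v ∈ l} := by
    ext x
    simp [List.mem_map]
  unfold Val
  rw [e]
  refine qt_push (S := {v | v ∈ l}) (f := f) (fun x hx y hy => hf x hx y hy) hadj ?_
  intro a ha b hb c hc d hd _ _ _ _ _ _
  refine cross_of_lt (S := {v | v ∈ l}) ?_ ha hb hc hd
  intro a ha b hb
  rw [idxOf_map_of hf ha, idxOf_map_of hf hb]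

/-- only the adjacency inside the list matters -/
theorem Val_congr {G₁ G₂ : SimpleGraph V} {l : List V} (hadj : ∀ a ∈ l, ∀ b ∈ l, (G₁.Adj a b ↔ G₂.Adj a b)) :
    Val G₁ l ↔ Val G₂ l := by
  have h := Val_map (G' := G₁) (G := G₂) (l := l) (f := id) (fun _ _ _ _ h => h) hadj
  rwa [List.map_id] at h

/-- change of the order -/
theorem Val_of_cross {l l' : List V} (hm : ∀ v, v ∈ l' ↔ v ∈ l)
    (h : ∀ a ∈ l, ∀ b ∈ l, ∀ c ∈ l, ∀ d ∈ l, a ≠ b → c ≠ d → a ≠ c → a ≠ d → b ≠ c → b ≠ d →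
      (Cross l a b c d ↔ Cross l' a b c d)) : Val G l ↔ Val G l' := by
  have e : {v | v ∈ l'} = id '' {v | v ∈ l} := by
    ext x
    simp [hm]
  unfold Val
  rw [e]
  exact qt_push (S := {v | v ∈ l}) (f := id) (fun x _ y _ h => h) (fun _ _ _ _ => Iff.rfl)
    (fun a ha b hb c hc d hd => h a ha b hb c hc d hd)

theorem Val_reverse {l : List V} (hl : l.Nodup) : Val G l.reverse ↔ Val G l := by
  refine (Val_of_cross (fun v => List.mem_reverse) ?_).symm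
  intro a ha b hb c hc d hd _ _ _ _ _ _
  have key : ∀ a ∈ l, l.reverse.idxOf a + l.idxOf a + 1 = l.length := by
    intro a ha
    have h1 := List.idxOf_lt_length_iff.2 ha
    have h2 : l.reverse[l.length - 1 - l.idxOf a]'(by rw [List.length_reverse]; omega) = a := by
      rw [List.getElem_reverse]
      have : l.length - 1 - (l.length - 1 - l.idxOf a) = l.idxOf a := by omega
      simp only [this, List.getElem_idxOf]
    have h3 := (List.nodup_reverse.2 hl).idxOf_getElem (l.length - 1 - l.idxOf a)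
      (by rw [List.length_reverse]; omega)
    rw [h2] at h3
    omega
  have ka := key a ha
  have kb := key b hb
  have kc := key c hc
  have kd := key d hd
  unfold Cross SOC.Btw
  have e : ∀ {x y x' y' : ℕ}, x' + x + 1 = l.length → y' + y + 1 = l.length → (x < y ↔ y' < x') := by
    intro x y x' y' h1 h2
    omega
  rw [e ka kc, e kc kb, e kb kc, e kc ka, e ka kd, e kd kb, e kb kd, e kd ka]
  tauto

theorem Val_rotate {l₁ l₂ : List V} (hl : (l₁ ++ l₂).Nodup) : Val G (l₁ ++ l₂) ↔ Val G (l₂ ++ l₁) := by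
  refine Val_of_cross (fun v => ?_) ?_
  · rw [List.mem_append, List.mem_append]
    exact or_comm
  intro a ha b hb c hc d hd _ _ _ _ _ _
  have hd' := List.nodup_append.1 hl
  have key : ∀ a ∈ l₁ ++ l₂, (a ∈ l₁ ∧ (l₁ ++ l₂).idxOf a < l₁.length ∧
      (l₂ ++ l₁).idxOf a = l₂.length + (l₁ ++ l₂).idxOf a) ∨ (a ∈ l₂ ∧ l₁.length ≤ (l₁ ++ l₂).idxOf a ∧
      (l₁ ++ l₂).idxOf a < l₁.length + l₂.length ∧ (l₂ ++ l₁).idxOf a + l₁.length = (l₁ ++ l₂).idxOf a) := by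
    intro a ha
    by_cases h1 : a ∈ l₁
    · have h2 : a ∉ l₂ := fun h => hd'.2.2 a h1 a h rfl
      left
      rw [List.idxOf_append_of_mem h1, List.idxOf_append_of_notMem h2]
      exact ⟨h1, List.idxOf_lt_length_iff.2 h1, rfl⟩
    · have h2 : a ∈ l₂ := (List.mem_append.1 ha).resolve_left h1
      right
      rw [List.idxOf_append_of_mem h2, List.idxOf_append_of_notMem h1]
      have := List.idxOf_lt_length_iff.2 h2
      exact ⟨h2, by omega, by omega, by omega⟩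
  have ka := key a ha
  have kb := key b hb
  have kc := key c hc
  have kd := key d hd
  have ne : ∀ {x y : V}, x ∈ l₁ ++ l₂ → y ∈ l₁ ++ l₂ → x ≠ y → (l₁ ++ l₂).idxOf x ≠ (l₁ ++ l₂).idxOf y :=
    fun hx _ h e => h ((List.idxOf_inj hx).1 e)
  have n1 := ne ha hb ‹a ≠ b›
  have n2 := ne hc hd ‹c ≠ d›
  have n3 := ne ha hc ‹a ≠ c›
  have n4 := ne ha hd ‹a ≠ d›
  have n5 := ne hb hc ‹b ≠ c›
  have n6 := ne hb hd ‹b ≠ d›
  unfold Cross SOC.Btw
  rcases ka with ⟨_, ka1, ka2⟩ | ⟨_, ka1, ka3, ka2⟩ <;> rcases kb with ⟨_, kb1, kb2⟩ | ⟨_, kb1, kb3, kb2⟩ <;>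
    rcases kc with ⟨_, kc1, kc2⟩ | ⟨_, kc1, kc3, kc2⟩ <;> rcases kd with ⟨_, kd1, kd2⟩ | ⟨_, kd1, kd3, kd2⟩ <;>
    omega

/-- the position in a sublist -/
theorem idxOf_sublist {l' l : List V} (h : l'.Sublist l) (hl : l.Nodup) {a b : V} (ha : a ∈ l') (hb : b ∈ l') :
    l'.idxOf a < l'.idxOf b ↔ l.idxOf a < l.idxOf b := by
  have key : ∀ {l' l : List V}, l'.Sublist l → l.Nodup → ∀ {a b : V}, a ∈ l' → b ∈ l' →
      l'.idxOf a < l'.idxOf b → l.idxOf a < l.idxOf b := by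
    intro l' l h
    induction h with
    | slnil => intro _ a b ha; exact absurd ha List.not_mem_nil
    | cons x h ih =>
      intro hl a b ha hb hlt
      have hx := (List.nodup_cons.1 hl).1
      have na : x ≠ a := fun e => hx (h.subset (by rw [e]; exact ha))
      have nb : x ≠ b := fun e => hx (h.subset (by rw [e]; exact hb))
      rw [List.idxOf_cons_ne _ na, List.idxOf_cons_ne _ nb]
      have := ih (List.nodup_cons.1 hl).2 ha hb hlt
      omega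
    | cons_cons x h ih =>
      intro hl a b ha hb hlt
      have hx := (List.nodup_cons.1 hl).1
      by_cases na : x = a
      · subst na
        by_cases nb : x = b
        · subst nb
          omega
        · rw [List.idxOf_cons_self, List.idxOf_cons_ne _ nb]
          omega
      · by_cases nb : x = b
        · subst nb
          rw [List.idxOf_cons_self] at hlt
          omega
        · rw [List.idxOf_cons_ne _ na, List.idxOf_cons_ne _ nb] at hlt ⊢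
          have ha' := (List.mem_cons.1 ha).resolve_left (fun e => na e.symm)
          have hb' := (List.mem_cons.1 hb).resolve_left (fun e => nb e.symm)
          have := ih (List.nodup_cons.1 hl).2 ha' hb' (by omega)
          omega
  refine ⟨key h hl ha hb, fun h1 => ?_⟩
  rcases lt_trichotomy (l'.idxOf a) (l'.idxOf b) with h2 | h2 | h2
  · exact h2
  · have h3 : a = b := (List.idxOf_inj ha).1 h2
    rw [h3] at h1
    omega
  · have := key h hl hb ha h2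
    omega

theorem Val_sublist {l' l : List V} (h : l'.Sublist l) (hl : l.Nodup) (hv : Val G l) : Val G l' := by
  have h1 : ∃ T, QT (restr G {v | v ∈ l'}) (Cross l) T := qt_restr (fun x hx => h.subset hx) hv
  have h2 := (qt_push (G' := G) (G := G) (S := {v | v ∈ l'}) (f := id) (cr' := Cross l) (cr := Cross l')
    (fun x _ y _ h => h) (fun _ _ _ _ => Iff.rfl) (fun a ha b hb c hc d hd _ _ _ _ _ _ => ?_)).1 h1
  · rwa [Set.image_id] at h2
  · exact cross_of_lt (l := l') (l' := l) (S := {v | v ∈ l'}) (f := id)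
      (fun a ha b hb => (idxOf_sublist h hl ha hb).symm) ha hb hc hd

/-- for an enumeration of all vertices -/
theorem Val_enum {s : List V} (hs : IsEnum s) : Val G s ↔ ∃ T, QT G (Cross s) T := by
  have e : restr G {v | v ∈ s} = G := by
    ext a b
    simp only [restr, Set.mem_setOf_eq]
    exact ⟨fun h => h.1, fun h => ⟨h, hs.2 a, hs.2 b⟩⟩
  unfold Val
  rw [e]

/-- the subtype of the members of the list -/
theorem Val_attach {l : List V} (hl : l.Nodup) :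
    Val G l ↔ ∃ T, QT (G.comap (Subtype.val : {v // v ∈ l} → V)) (Cross l.attach) T := by
  have h1 := Val_map (G' := G.comap (Subtype.val : {v // v ∈ l} → V)) (G := G) (l := l.attach) (f := Subtype.val)
    (fun _ _ _ _ h => Subtype.ext h) (fun _ _ _ _ => Iff.rfl)
  rw [List.attach_map_subtype_val] at h1
  rw [← h1]
  exact Val_enum ⟨List.nodup_attach.2 hl, fun v => List.mem_attach _ v⟩

theorem Val_iff_wf {l : List V} (hl : l.Nodup) : Val G l ↔ WF (G.comap (Subtype.val : {v // v ∈ l} → V))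
    (CrD l.attach) (Wc (G.comap (Subtype.val : {v // v ∈ l} → V)) (CrD l.attach)) := by
  rw [Val_attach hl]
  exact ex_iff ⟨List.nodup_attach.2 hl, fun v => List.mem_attach _ v⟩

end Pool.Agent.SOV
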