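import Pool.Agent.SOV.Tst
import Pool.Agent.SOV.Val

/-! Project SOV, module TstOk: the fixed order test is correct. -/

set_option autoImplicit false

namespace Pool.Agent.SOV

open Pool.Agent.SOC Pool.Agent.SOD Pool.Agent.SOS Pool.Agent.RUP Pool.Agent.SOF

/-! ### one step, for relations -/

section
variable {V : Type} (G : SimpleGraph V) (X R : V → V → V → V → Prop)

def s3 (p q r t : V) : Prop :=
  R q p r t ∨ R r t p q ∨ (p ≠ q ∧ r ≠ t ∧ Sq G p q r t ∧ ¬ X p q r t ∧ ¬ G.Adj p q)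

def s4 (p q r t y : V) : Prop := K5F G [p, q, r, y, t] ∧ r ≠ t ∧ R p q r y ∧ R p q y t

def s5 (p q r t x : V) : Prop :=
  K5F G [p, r, x, q, t] ∧ x ≠ t ∧ R p r x q ∧ RF G X R p r x t ∧ K4 G p r q t ∧ ¬ X p r q t ∧ ¬ X p q r t

def s6 (p q r t x : V) : Prop := K5F G [p, r, x, t, q] ∧ q ≠ t ∧ R p x r t ∧ R p q r x

def s7 (p q r t y : V) : Prop :=
  K5F G [p, q, t, y, r] ∧ r ≠ y ∧ R p t q y ∧ RF G X R p r q y ∧ K4 G p q t r ∧ ¬ X p r q t ∧ ¬ X p q r t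

def s8 (p q r t y : V) : Prop :=
  K5F G [p, r, q, y, t] ∧ t ≠ y ∧ R p q r y ∧ RF G X R p t r y ∧ K4 G p r q t ∧ ¬ X p t r q ∧ ¬ X p q r t

def s9 (p q r t x y : V) : Prop :=
  K5F G [p, r, x, t, q, y] ∧ x ≠ q ∧ x ≠ y ∧ t ≠ q ∧ t ≠ y ∧ R p x r t ∧ R p q r y ∧ RF G X R p x r y

def s10 (p q r t x y : V) : Prop :=
  K5F G [p, q, x, y, r, t] ∧ x ≠ r ∧ x ≠ t ∧ y ≠ r ∧ y ≠ t ∧ R p x q y ∧ RF G X R p x q t ∧ RF G X R p r q y ∧
    K4 G p q r t ∧ ¬ X p r q t ∧ ¬ X p q r t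

def s11 (p q r t x y : V) : Prop :=
  K5F G [p, r, x, y, t, q] ∧ x ≠ t ∧ x ≠ q ∧ y ≠ t ∧ y ≠ q ∧ R p x r y ∧ RF G X R p x r q ∧ RF G X R p t r y ∧
    K4 G p r t q ∧ ¬ X p t r q ∧ ¬ X p q r t

def s12 (p q r t d : V) : Prop := K5 G p q r d t ∧ X t p r d ∧ X t q r d ∧ R p q r d

/-- one step -/
def St (p q r t : V) : Prop :=
  s3 G X R p q r t ∨ (∃ x, s4 G R p q r t x ∨ s5 G X R p q r t x ∨ s6 G R p q r t x ∨ s7 G X R p q r t x ∨
    s8 G X R p q r t x ∨ s12 G X R p q r t x) ∨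
    ∃ x y, s9 G X R p q r t x y ∨ s10 G X R p q r t x y ∨ s11 G X R p q r t x y

variable {G X R}

theorem cl_of_St (h : ∀ p q r t, St G X R p q r t → R p q r t) : Cl G X R where
  sw1 h1 := h _ _ _ _ (Or.inl (Or.inl h1))
  sw2 h1 := h _ _ _ _ (Or.inl (Or.inr (Or.inl h1)))
  const h1 h2 h3 h4 h5 := h _ _ _ _ (Or.inl (Or.inr (Or.inr ⟨h1, h2, h3, h4, h5⟩)))
  bf h1 h2 h3 h4 := h _ _ _ _ (Or.inr (Or.inl ⟨_, Or.inl ⟨h1, h2, h3, h4⟩⟩))
  bb h1 h2 h3 h4 h5 h6 h7 := h _ _ _ _ (Or.inr (Or.inl ⟨_, Or.inr (Or.inl ⟨h1, h2, h3, h4, h5, h6, h7⟩)⟩))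
  df h1 h2 h3 h4 := h _ _ _ _ (Or.inr (Or.inl ⟨_, Or.inr (Or.inr (Or.inl ⟨h1, h2, h3, h4⟩))⟩))
  db1 h1 h2 h3 h4 h5 h6 h7 :=
    h _ _ _ _ (Or.inr (Or.inl ⟨_, Or.inr (Or.inr (Or.inr (Or.inl ⟨h1, h2, h3, h4, h5, h6, h7⟩)))⟩))
  db2 h1 h2 h3 h4 h5 h6 h7 :=
    h _ _ _ _ (Or.inr (Or.inl ⟨_, Or.inr (Or.inr (Or.inr (Or.inr (Or.inl ⟨h1, h2, h3, h4, h5, h6, h7⟩))))⟩))
  cf h1 h2 h3 h4 h5 h6 h7 h8 := h _ _ _ _ (Or.inr (Or.inr ⟨_, _, Or.inl ⟨h1, h2, h3, h4, h5, h6, h7, h8⟩⟩))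
  cb1 h1 h2 h3 h4 h5 h6 h7 h8 h9 h10 h11 :=
    h _ _ _ _ (Or.inr (Or.inr ⟨_, _, Or.inr (Or.inl ⟨h1, h2, h3, h4, h5, h6, h7, h8, h9, h10, h11⟩)⟩))
  cb2 h1 h2 h3 h4 h5 h6 h7 h8 h9 h10 h11 :=
    h _ _ _ _ (Or.inr (Or.inr ⟨_, _, Or.inr (Or.inr ⟨h1, h2, h3, h4, h5, h6, h7, h8, h9, h10, h11⟩)⟩))
  k5 h1 h2 h3 h4 :=
    h _ _ _ _ (Or.inr (Or.inl ⟨_, Or.inr (Or.inr (Or.inr (Or.inr (Or.inr ⟨h1, h2, h3, h4⟩))))⟩))

theorem St_of_cl (h : Cl G X R) {p q r t : V} (hs : St G X R p q r t) : R p q r t := by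
  rcases hs with (h1 | h1 | ⟨h1, h2, h3, h4, h5⟩) | ⟨x, h1 | h1 | h1 | h1 | h1 | h1⟩ | ⟨x, y, h1 | h1 | h1⟩
  · exact h.sw1 h1
  · exact h.sw2 h1
  · exact h.const h1 h2 h3 h4 h5
  · exact h.bf h1.1 h1.2.1 h1.2.2.1 h1.2.2.2
  · obtain ⟨h1, h2, h3, h4, h5, h6, h7⟩ := h1
    exact h.bb h1 h2 h3 h4 h5 h6 h7
  · exact h.df h1.1 h1.2.1 h1.2.2.1 h1.2.2.2
  · obtain ⟨h1, h2, h3, h4, h5, h6, h7⟩ := h1
    exact h.db1 h1 h2 h3 h4 h5 h6 h7
  · obtain ⟨h1, h2, h3, h4, h5, h6, h7⟩ := h1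
    exact h.db2 h1 h2 h3 h4 h5 h6 h7
  · exact h.k5 h1.1 h1.2.1 h1.2.2.1 h1.2.2.2
  · obtain ⟨h1, h2, h3, h4, h5, h6, h7, h8⟩ := h1
    exact h.cf h1 h2 h3 h4 h5 h6 h7 h8
  · obtain ⟨h1, h2, h3, h4, h5, h6, h7, h8, h9, h10, h11⟩ := h1
    exact h.cb1 h1 h2 h3 h4 h5 h6 h7 h8 h9 h10 h11
  · obtain ⟨h1, h2, h3, h4, h5, h6, h7, h8, h9, h10, h11⟩ := h1
    exact h.cb2 h1 h2 h3 h4 h5 h6 h7 h8 h9 h10 h11

theorem St.mono {R' : V → V → V → V → Prop} (h : ∀ {a b c d}, R a b c d → R' a b c d) {p q r t : V}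
    (hs : St G X R p q r t) : St G X R' p q r t := by
  rcases hs with (h1 | h1 | h1) | ⟨x, h1 | h1 | h1 | h1 | h1 | h1⟩ | ⟨x, y, h1 | h1 | h1⟩
  · exact Or.inl (Or.inl (h h1))
  · exact Or.inl (Or.inr (Or.inl (h h1)))
  · exact Or.inl (Or.inr (Or.inr h1))
  · exact Or.inr (Or.inl ⟨x, Or.inl ⟨h1.1, h1.2.1, h h1.2.2.1, h h1.2.2.2⟩⟩)
  · obtain ⟨h1, h2, h3, h4, h5, h6, h7⟩ := h1
    exact Or.inr (Or.inl ⟨x, Or.inr (Or.inl ⟨h1, h2, h h3, h4.mono h, h5, h6, h7⟩)⟩)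
  · exact Or.inr (Or.inl ⟨x, Or.inr (Or.inr (Or.inl ⟨h1.1, h1.2.1, h h1.2.2.1, h h1.2.2.2⟩))⟩)
  · obtain ⟨h1, h2, h3, h4, h5, h6, h7⟩ := h1
    exact Or.inr (Or.inl ⟨x, Or.inr (Or.inr (Or.inr (Or.inl ⟨h1, h2, h h3, h4.mono h, h5, h6, h7⟩)))⟩)
  · obtain ⟨h1, h2, h3, h4, h5, h6, h7⟩ := h1
    exact Or.inr (Or.inl ⟨x, Or.inr (Or.inr (Or.inr (Or.inr (Or.inl ⟨h1, h2, h h3, h4.mono h, h5, h6, h7⟩))))⟩)
  · exact Or.inr (Or.inl ⟨x, Or.inr (Or.inr (Or.inr (Or.inr (Or.inr ⟨h1.1, h1.2.1, h1.2.2.1, h h1.2.2.2⟩))))⟩)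
  · obtain ⟨h1, h2, h3, h4, h5, h6, h7, h8⟩ := h1
    exact Or.inr (Or.inr ⟨x, y, Or.inl ⟨h1, h2, h3, h4, h5, h h6, h h7, h8.mono h⟩⟩)
  · obtain ⟨h1, h2, h3, h4, h5, h6, h7, h8, h9⟩ := h1
    exact Or.inr (Or.inr ⟨x, y, Or.inr (Or.inl ⟨h1, h2, h3, h4, h5, h h6, h7.mono h, h8.mono h, h9⟩)⟩)
  · obtain ⟨h1, h2, h3, h4, h5, h6, h7, h8, h9⟩ := h1
    exact Or.inr (Or.inr ⟨x, y, Or.inr (Or.inr ⟨h1, h2, h3, h4, h5, h h6, h7.mono h, h8.mono h, h9⟩)⟩)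

end

/-! ### the Boolean functions -/

/-- the graph on all natural numbers given by the matrix -/
def gN (M : List (List Bool)) : SimpleGraph ℕ where
  Adj i j := adjB M i j = true
  symm := ⟨by
    intro i j h
    unfold adjB at h ⊢
    simp only [Bool.and_eq_true, decide_eq_true_eq, Bool.or_eq_true] at h ⊢
    exact ⟨fun e => h.1 e.symm, h.2.symm⟩⟩
  loopless := ⟨by
    intro i h
    unfold adjB at h
    simp at h⟩

section
variable {M : List (List Bool)} {l : List ℕ} {S : List Qd}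

/-- the members of the list -/
abbrev Mem (l : List ℕ) : Type := {v // v ∈ l}

/-- the graph on the members of the list -/
abbrev gL (M : List (List Bool)) (l : List ℕ) : SimpleGraph (Mem l) := (gN M).comap Subtype.val

/-- the quartets of the list, as a relation -/
def RS (l : List ℕ) (S : List Qd) (a b c d : Mem l) : Prop := (a.1, b.1, c.1, d.1) ∈ S

theorem adj_iff {a b : Mem l} : adjB M a.1 b.1 = true ↔ (gL M l).Adj a b := Iff.rfl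

theorem sqB_iff {a b c d : Mem l} : sqB M a.1 b.1 c.1 d.1 = true ↔ Sq (gL M l) a b c d := by
  unfold sqB Sq
  simp only [Bool.and_eq_true, adj_iff (M := M) (l := l)]

theorem k4B_iff {a b c d : Mem l} : k4B M a.1 b.1 c.1 d.1 = true ↔ K4 (gL M l) a b c d := by
  unfold k4B K4
  simp only [Bool.and_eq_true, adj_iff (M := M) (l := l)]

theorem k5B_iff {a b c d e : Mem l} : k5B M a.1 b.1 c.1 d.1 e.1 = true ↔ K5 (gL M l) a b c d e := by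
  unfold k5B K5
  simp only [Bool.and_eq_true, adj_iff (M := M) (l := l)]

theorem k5fB_iff {L : List (Mem l)} : k5fB M (L.map Subtype.val) = true ↔ K5F (gL M l) L := by
  unfold k5fB K5F
  rw [Bool.not_eq_true', ← Bool.not_eq_true, List.any_eq_true]
  constructor
  · intro h a ha b hb c hc d hd e he hk
    refine h ⟨a.1, List.mem_map_of_mem ha, ?_⟩
    rw [List.any_eq_true]
    refine ⟨b.1, List.mem_map_of_mem hb, ?_⟩
    rw [List.any_eq_true]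
    refine ⟨c.1, List.mem_map_of_mem hc, ?_⟩
    rw [List.any_eq_true]
    refine ⟨d.1, List.mem_map_of_mem hd, ?_⟩
    rw [List.any_eq_true]
    exact ⟨e.1, List.mem_map_of_mem he, k5B_iff.2 hk⟩
  · rintro h ⟨a, ha, h1⟩
    rw [List.any_eq_true] at h1
    obtain ⟨b, hb, h1⟩ := h1
    rw [List.any_eq_true] at h1
    obtain ⟨c, hc, h1⟩ := h1
    rw [List.any_eq_true] at h1
    obtain ⟨d, hd, h1⟩ := h1
    rw [List.any_eq_true] at h1
    obtain ⟨e, he, h1⟩ := h1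
    obtain ⟨a, ka, rfl⟩ := List.mem_map.1 ha
    obtain ⟨b, kb, rfl⟩ := List.mem_map.1 hb
    obtain ⟨c, kc, rfl⟩ := List.mem_map.1 hc
    obtain ⟨d, kd, rfl⟩ := List.mem_map.1 hd
    obtain ⟨e, ke, rfl⟩ := List.mem_map.1 he
    exact h a ka b kb c kc d kd e ke (k5B_iff.1 h1)

theorem k5f5_iff {a b c d e : Mem l} : k5fB M [a.1, b.1, c.1, d.1, e.1] = true ↔ K5F (gL M l) [a, b, c, d, e] :=
  k5fB_iff (L := [a, b, c, d, e])

theorem k5f6_iff {a b c d e f : Mem l} :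
    k5fB M [a.1, b.1, c.1, d.1, e.1, f.1] = true ↔ K5F (gL M l) [a, b, c, d, e, f] :=
  k5fB_iff (L := [a, b, c, d, e, f])

theorem ne_iff {a b : Mem l} : a.1 ≠ b.1 ↔ a ≠ b := not_congr ⟨Subtype.ext, fun e => by rw [e]⟩

theorem idx_attach {a : Mem l} : @List.idxOf (Mem l) instBEqOfDecidableEq a l.attach = l.idxOf a.1 := by
  have h := idxOf_map_of (l := l.attach) (f := Subtype.val) (fun _ _ _ _ h => Subtype.ext h) (List.mem_attach l a)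
  rw [List.attach_map_subtype_val] at h
  exact h.symm

theorem btwB_iff {a b c : Mem l} : btwB l a.1 b.1 c.1 = true ↔ SOC.Btw l.attach a b c := by
  unfold btwB SOC.Btw
  simp only [Bool.or_eq_true, Bool.and_eq_true, decide_eq_true_eq, idx_attach]

theorem crB_iff {a b c d : Mem l} : crB l a.1 b.1 c.1 d.1 = true ↔ CrD l.attach a b c d := by
  unfold crB CrD Cross
  rw [Bool.and_eq_true]
  refine and_congr ?_ ?_
  · simp only [Bool.and_eq_true, decide_eq_true_eq, ne_iff]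
  · rw [← btwB_iff, ← btwB_iff]
    cases btwB l a.1 b.1 c.1 <;> cases btwB l a.1 b.1 d.1 <;> simp

theorem meB_iff {a b c d : Mem l} : meB S a.1 b.1 c.1 d.1 = true ↔ RS l S a b c d := by
  unfold meB RS
  rw [decide_eq_true_eq]

theorem nsq_iff {a b c d : Mem l} : (!(sqB M a.1 b.1 c.1 d.1)) = true ↔ ¬ Sq (gL M l) a b c d := by
  rw [Bool.not_eq_true', ← Bool.not_eq_true, sqB_iff]

theorem ncr_iff {a b c d : Mem l} : (!(crB l a.1 b.1 c.1 d.1)) = true ↔ ¬ CrD l.attach a b c d := by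
  rw [Bool.not_eq_true', ← Bool.not_eq_true, crB_iff]

theorem nad_iff {a b : Mem l} : (!(adjB M a.1 b.1)) = true ↔ ¬ (gL M l).Adj a b := by
  rw [Bool.not_eq_true', ← Bool.not_eq_true, adj_iff]

theorem rfB_iff {a b c d : Mem l} :
    rfB M l S a.1 b.1 c.1 d.1 = true ↔ RF (gL M l) (CrD l.attach) (RS l S) a b c d := by
  unfold rfB RF
  rw [Bool.or_eq_true, Bool.or_eq_true, Bool.or_eq_true, nsq_iff, crB_iff, meB_iff, meB_iff]

variable {p q r t x y : Mem l}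

theorem b3_iff : b3 M l S p.1 q.1 r.1 t.1 = true ↔ s3 (gL M l) (CrD l.attach) (RS l S) p q r t := by
  unfold b3 s3
  simp only [Bool.or_eq_true, Bool.and_eq_true, meB_iff, decide_eq_true_eq, ne_iff, sqB_iff, ncr_iff, nad_iff]

theorem b4_iff : b4 M S p.1 q.1 r.1 t.1 x.1 = true ↔ s4 (gL M l) (RS l S) p q r t x := by
  unfold b4 s4
  simp only [Bool.and_eq_true, meB_iff, decide_eq_true_eq, ne_iff, k5f5_iff]

theorem b5_iff : b5 M l S p.1 q.1 r.1 t.1 x.1 = true ↔ s5 (gL M l) (CrD l.attach) (RS l S) p q r t x := by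
  unfold b5 s5
  simp only [Bool.and_eq_true, meB_iff, decide_eq_true_eq, ne_iff, k5f5_iff, rfB_iff, k4B_iff, ncr_iff]

theorem b6_iff : b6 M S p.1 q.1 r.1 t.1 x.1 = true ↔ s6 (gL M l) (RS l S) p q r t x := by
  unfold b6 s6
  simp only [Bool.and_eq_true, meB_iff, decide_eq_true_eq, ne_iff, k5f5_iff]

theorem b7_iff : b7 M l S p.1 q.1 r.1 t.1 x.1 = true ↔ s7 (gL M l) (CrD l.attach) (RS l S) p q r t x := by
  unfold b7 s7
  simp only [Bool.and_eq_true, meB_iff, decide_eq_true_eq, ne_iff, k5f5_iff, rfB_iff, k4B_iff, ncr_iff]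

theorem b8_iff : b8 M l S p.1 q.1 r.1 t.1 x.1 = true ↔ s8 (gL M l) (CrD l.attach) (RS l S) p q r t x := by
  unfold b8 s8
  simp only [Bool.and_eq_true, meB_iff, decide_eq_true_eq, ne_iff, k5f5_iff, rfB_iff, k4B_iff, ncr_iff]

theorem b9_iff : b9 M l S p.1 q.1 r.1 t.1 x.1 y.1 = true ↔ s9 (gL M l) (CrD l.attach) (RS l S) p q r t x y := by
  unfold b9 s9
  simp only [Bool.and_eq_true, meB_iff, decide_eq_true_eq, ne_iff, k5f6_iff, rfB_iff]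

theorem b10_iff : b10 M l S p.1 q.1 r.1 t.1 x.1 y.1 = true ↔ s10 (gL M l) (CrD l.attach) (RS l S) p q r t x y := by
  unfold b10 s10
  simp only [Bool.and_eq_true, meB_iff, decide_eq_true_eq, ne_iff, k5f6_iff, rfB_iff, k4B_iff, ncr_iff]

theorem b11_iff : b11 M l S p.1 q.1 r.1 t.1 x.1 y.1 = true ↔ s11 (gL M l) (CrD l.attach) (RS l S) p q r t x y := by
  unfold b11 s11
  simp only [Bool.and_eq_true, meB_iff, decide_eq_true_eq, ne_iff, k5f6_iff, rfB_iff, k4B_iff, ncr_iff]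

theorem b12_iff : b12 M l S p.1 q.1 r.1 t.1 x.1 = true ↔ s12 (gL M l) (CrD l.attach) (RS l S) p q r t x := by
  unfold b12 s12
  simp only [Bool.and_eq_true, meB_iff, k5B_iff, crB_iff]

theorem stepB_iff : stepB M l (p.1, q.1, r.1, t.1) S = true ↔ St (gL M l) (CrD l.attach) (RS l S) p q r t := by
  unfold stepB St
  rw [Bool.or_eq_true, Bool.or_eq_true, List.any_eq_true, List.any_eq_true, b3_iff]
  refine or_congr Iff.rfl (or_congr ?_ ?_)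
  · have key : ∀ x : Mem l, bOne M l S p.1 q.1 r.1 t.1 x.1 = true ↔ (s4 (gL M l) (RS l S) p q r t x ∨
        s5 (gL M l) (CrD l.attach) (RS l S) p q r t x ∨ s6 (gL M l) (RS l S) p q r t x ∨
        s7 (gL M l) (CrD l.attach) (RS l S) p q r t x ∨ s8 (gL M l) (CrD l.attach) (RS l S) p q r t x ∨
        s12 (gL M l) (CrD l.attach) (RS l S) p q r t x) := by
      intro x
      unfold bOne
      rw [Bool.or_eq_true, Bool.or_eq_true, Bool.or_eq_true, Bool.or_eq_true, Bool.or_eq_true, b4_iff, b5_iff, b6_iff,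
        b7_iff, b8_iff, b12_iff]
    constructor
    · rintro ⟨x, hx, h⟩
      exact ⟨⟨x, hx⟩, (key ⟨x, hx⟩).1 h⟩
    · rintro ⟨x, h⟩
      exact ⟨x.1, x.2, (key x).2 h⟩
  · have key : ∀ x y : Mem l, bTwo M l S p.1 q.1 r.1 t.1 x.1 y.1 = true ↔
        (s9 (gL M l) (CrD l.attach) (RS l S) p q r t x y ∨ s10 (gL M l) (CrD l.attach) (RS l S) p q r t x y ∨
        s11 (gL M l) (CrD l.attach) (RS l S) p q r t x y) := by
      intro x y
      unfold bTwo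
      rw [Bool.or_eq_true, Bool.or_eq_true, b9_iff, b10_iff, b11_iff]
    constructor
    · rintro ⟨x, hx, h⟩
      rw [List.any_eq_true] at h
      obtain ⟨y, hy, h⟩ := h
      exact ⟨⟨x, hx⟩, ⟨y, hy⟩, (key ⟨x, hx⟩ ⟨y, hy⟩).1 h⟩
    · rintro ⟨x, y, h⟩
      refine ⟨x.1, x.2, ?_⟩
      rw [List.any_eq_true]
      exact ⟨y.1, y.2, (key x y).2 h⟩

theorem mem_quads {z : Qd} : z ∈ quads l ↔ z.1 ∈ l ∧ z.2.1 ∈ l ∧ z.2.2.1 ∈ l ∧ z.2.2.2 ∈ l := by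
  obtain ⟨a, b, c, d⟩ := z
  unfold quads
  simp only [List.mem_flatMap, List.mem_map, Prod.mk.injEq]
  constructor
  · rintro ⟨a, ha, b, hb, c, hc, d, hd, rfl, rfl, rfl, rfl⟩
    exact ⟨ha, hb, hc, hd⟩
  · rintro ⟨ha, hb, hc, hd⟩
    exact ⟨a, ha, b, hb, c, hc, d, hd, rfl, rfl, rfl, rfl⟩

/-- the computed closure is the smallest closed relation -/
theorem clo_iff : (p.1, q.1, r.1, t.1) ∈ cloB M l ↔ Wc (gL M l) (CrD l.attach) p q r t := by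
  have hmono : ∀ z ∈ quads l, ∀ (A B : List Qd), (∀ x ∈ A, x ∈ B) → stepB M l z A = true → stepB M l z B = true := by
    rintro ⟨a, b, c, d⟩ hz A B hAB h
    obtain ⟨ha, hb, hc, hd⟩ := mem_quads.1 hz
    exact stepB_iff.2 (St.mono (fun h1 => hAB _ h1)
      (stepB_iff (p := ⟨a, ha⟩) (q := ⟨b, hb⟩) (r := ⟨c, hc⟩) (t := ⟨d, hd⟩).1 h))
  obtain ⟨_, h2, h3⟩ := closQ_spec (f := stepB M l) (L := quads l) (S := []) hmono
    (fun x hx => absurd hx List.not_mem_nil)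
  constructor
  · intro h
    have h4 := h3 {z | ∀ p q r t : Mem l, z = (p.1, q.1, r.1, t.1) → Wc (gL M l) (CrD l.attach) p q r t}
      (fun x hx => absurd hx List.not_mem_nil) ?_ _ h p q r t rfl
    · exact h4
    · rintro z hz A hA h5 p q r t rfl
      refine St_of_cl Wc.cl ((stepB_iff.1 h5).mono ?_)
      intro a b c d h6
      exact (hA _ h6).1 a b c d rfl
  · intro h
    refine h (RS l (cloB M l)) (cl_of_St ?_)
    intro p q r t h4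
    exact h2 _ (mem_quads.2 ⟨p.2, q.2, r.2, t.2⟩) (stepB_iff.2 h4)

theorem confB_iff : confB M l (cloB M l) (p.1, q.1, r.1, t.1) = true ↔ (Sq (gL M l) p q r t ∧ p ≠ q ∧
    ¬ CrD l.attach p q r t ∧ ¬ Wc (gL M l) (CrD l.attach) p r q t) := by
  have h1 : (!(meB (cloB M l) p.1 r.1 q.1 t.1)) = true ↔ ¬ Wc (gL M l) (CrD l.attach) p r q t := by
    rw [Bool.not_eq_true', ← Bool.not_eq_true, meB_iff]
    exact not_congr clo_iff
  unfold confB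
  simp only [Bool.and_eq_true, decide_eq_true_eq, ne_iff, sqB_iff, ncr_iff, h1]

theorem rigB_iff : rigB M l (p.1, q.1, r.1, t.1) = true ↔ (CrD l.attach p q r t → (gL M l).Adj p q → (gL M l).Adj r t →
    ((gL M l).Adj p t ∧ (gL M l).Adj r q) ∨ ((gL M l).Adj p r ∧ (gL M l).Adj t q)) := by
  unfold rigB
  simp only [Bool.or_eq_true, Bool.and_eq_true, adj_iff (M := M) (l := l), Bool.not_eq_true', ← Bool.not_eq_true, crB_iff]
  tauto

/-- THE FIXED ORDER TEST IS CORRECT -/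
theorem tOk_iff (hl : l.Nodup) : tOk M l = true ↔ Val (gN M) l := by
  rw [Val_iff_wf hl]
  have hs : IsEnum l.attach := ⟨List.nodup_attach.2 hl, fun v => List.mem_attach _ v⟩
  unfold tOk
  rw [Bool.and_eq_true, List.all_eq_true, List.all_eq_true]
  constructor
  · rintro ⟨h1, h2⟩
    have h3 : ∀ {a b c d : Mem l}, Wc (gL M l) (CrD l.attach) a b c d → _ := fun {a b c d} h =>
      confB_iff.1 (h1 _ (clo_iff.2 h))
    exact ⟨crD_sepr hs, Wc.cl, fun h => (h3 h).1, fun h => (h3 h).2.1, fun h => (h3 h).2.2.1, fun h => (h3 h).2.2.2,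
      fun {a b c d} h ab cd => rigB_iff.1 (h2 (a.1, b.1, c.1, d.1) (mem_quads.2 ⟨a.2, b.2, c.2, d.2⟩)) h ab cd⟩
  · intro h
    constructor
    · rintro ⟨a, b, c, d⟩ hz
      obtain ⟨ha, hb, hc, hd⟩ := mem_quads.1 (closQ_mem (f := stepB M l) (L := quads l) (S := [])
        (fun x hx => absurd hx List.not_mem_nil) hz)
      have h1 := clo_iff (p := ⟨a, ha⟩) (q := ⟨b, hb⟩) (r := ⟨c, hc⟩) (t := ⟨d, hd⟩).1 hz
      exact confB_iff (p := ⟨a, ha⟩) (q := ⟨b, hb⟩) (r := ⟨c, hc⟩) (t := ⟨d, hd⟩).2 ⟨h.sq h1, h.ne h1, h.nc h1, h.ex h1⟩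
    · rintro ⟨a, b, c, d⟩ hz
      obtain ⟨ha, hb, hc, hd⟩ := mem_quads.1 hz
      exact rigB_iff (p := ⟨a, ha⟩) (q := ⟨b, hb⟩) (r := ⟨c, hc⟩) (t := ⟨d, hd⟩).2 (fun h1 h2 h3 => h.rig h1 h2 h3)

end

/-- lists of vertices of the graph of the matrix -/
theorem Val_graphOf {M : List (List Bool)} {l : List (Fin M.length)} :
    Val (graphOf M) l ↔ Val (gN M) (l.map Fin.val) :=
  Val_map (fun _ _ _ _ h => Fin.ext h) (fun _ _ _ _ => Iff.rfl)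

theorem tOk_fin {M : List (List Bool)} {l : List (Fin M.length)} (hl : l.Nodup) :
    tOk M (l.map Fin.val) = true ↔ Val (graphOf M) l := by
  rw [tOk_iff (hl.map Fin.val_injective), Val_graphOf]

/-- the test for an enumeration of all vertices -/
theorem tOk_enum {M : List (List Bool)} {l : List (Fin M.length)} (hl : IsEnum l) :
    tOk M (l.map Fin.val) = true ↔ ∃ T, QT (graphOf M) (Cross l) T := by
  rw [tOk_fin hl.1, Val_enum hl]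

end Pool.Agent.SOV
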