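import Pool.Agent.SOC.ModPoly

/-! Project SOV, module Clo: closure of a list under a rule. -/

set_option autoImplicit false

namespace Pool.Agent.SOV

open Pool.Agent.SOC FP

/-- iterated closure inside the list `L` -/
def closQ {β : Type} [DecidableEq β] (f : β → List β → Bool) (L S : List β) : List β :=
  (fun S => L.filter (fun z => decide (z ∈ S) || f z S))^[L.length] S

section
variable {β : Type} [DecidableEq β]

theorem closQ_spec {f : β → List β → Bool} {L S : List β}
    (hf : ∀ z ∈ L, ∀ A B, (∀ x ∈ A, x ∈ B) → f z A = true → f z B = true) (hS : ∀ x ∈ S, x ∈ L) :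
    (∀ x ∈ S, x ∈ closQ f L S) ∧
    (∀ z ∈ L, f z (closQ f L S) = true → z ∈ closQ f L S) ∧
    (∀ X : Set β, (∀ x ∈ S, x ∈ X) →
      (∀ z ∈ L, ∀ A : List β, (∀ x ∈ A, x ∈ X ∧ x ∈ L) → f z A = true → z ∈ X) →
      ∀ x ∈ closQ f L S, x ∈ X) := by
  classical
  let g : List β → List β := fun S => L.filter (fun z => decide (z ∈ S) || f z S)
  have hg : ∀ A z, z ∈ g A ↔ z ∈ L ∧ (z ∈ A ∨ f z A = true) := by
    intro A z
    simp [g]
  have hA : closQ f L S = g^[L.length] S := rfl
  have hsucc : ∀ k, g^[k + 1] S = g (g^[k] S) := fun k => Function.iterate_succ_apply' g k S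
  have hL : ∀ k, ∀ x ∈ g^[k] S, x ∈ L := by
    intro k
    induction k with
    | zero => exact hS
    | succ k ih =>
      intro x hx
      rw [hsucc] at hx
      exact ((hg _ _).1 hx).1
  have hstep : ∀ k, ∀ x ∈ g^[k] S, x ∈ g^[k + 1] S := by
    intro k x hx
    rw [hsucc]
    exact (hg _ _).2 ⟨hL k x hx, Or.inl hx⟩
  have hstab : ∃ k ≤ L.length, ∀ x ∈ g^[k + 1] S, x ∈ g^[k] S := by
    by_contra hcon
    push Not at hcon
    have hcard : ∀ k ≤ L.length + 1, k ≤ (g^[k] S).toFinset.card := by
      intro k
      induction k with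
      | zero => intro _; exact Nat.zero_le _
      | succ k ih =>
        intro hk
        obtain ⟨x, hx1, hx2⟩ := hcon k (by omega)
        have h1 : (g^[k] S).toFinset ⊂ (g^[k + 1] S).toFinset := by
          rw [Finset.ssubset_iff_of_subset]
          · exact ⟨x, List.mem_toFinset.2 hx1, fun h => hx2 (List.mem_toFinset.1 h)⟩
          · intro y hy
            exact List.mem_toFinset.2 (hstep k y (List.mem_toFinset.1 hy))
        have h2 := Finset.card_lt_card h1
        have h3 := ih (by omega)
        omega
    have h1 := hcard (L.length + 1) le_rfl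
    have h2 : (g^[L.length + 1] S).toFinset ⊆ L.toFinset := by
      intro y hy
      exact List.mem_toFinset.2 (hL _ y (List.mem_toFinset.1 hy))
    have h3 := Finset.card_le_card h2
    have h4 := L.toFinset_card_le
    omega
  have hstab2 : ∀ x ∈ g^[L.length + 1] S, x ∈ g^[L.length] S := by
    obtain ⟨k, hk, hk2⟩ := hstab
    have : ∀ j, ∀ x ∈ g^[k + j + 1] S, x ∈ g^[k + j] S := by
      intro j
      induction j with
      | zero => exact hk2
      | succ j ih =>
        intro x hx
        rw [hsucc] at hx
        obtain ⟨h1, h2⟩ := (hg _ _).1 hx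
        rcases h2 with h2 | h2
        · exact h2
        · show x ∈ g^[k + j + 1] S
          rw [hsucc]
          exact (hg _ _).2 ⟨h1, Or.inr (hf x h1 _ _ ih h2)⟩
    have h1 := this (L.length - k)
    have h2 : k + (L.length - k) = L.length := by omega
    rw [h2] at h1
    exact h1
  rw [hA]
  refine ⟨?_, ?_, ?_⟩
  · have : ∀ k, ∀ x ∈ S, x ∈ g^[k] S := by
      intro k
      induction k with
      | zero => exact fun x hx => hx
      | succ k ih => exact fun x hx => hstep k x (ih x hx)
    exact this _
  · intro z hz h1
    refine hstab2 z ?_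
    rw [hsucc]
    exact (hg _ _).2 ⟨hz, Or.inr h1⟩
  · intro X h1 h2
    have : ∀ k, ∀ x ∈ g^[k] S, x ∈ X := by
      intro k
      induction k with
      | zero => exact h1
      | succ k ih =>
        intro x hx
        rw [hsucc] at hx
        obtain ⟨h3, h4⟩ := (hg _ _).1 hx
        rcases h4 with h4 | h4
        · exact ih x h4
        · exact h2 x h3 _ (fun y hy => ⟨ih y hy, hL k y hy⟩) h4
    exact this _


theorem closQ_mem {f : β → List β → Bool} {L S : List β} (hS : ∀ x ∈ S, x ∈ L) {z : β} (h : z ∈ closQ f L S) :
    z ∈ L := by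
  unfold closQ at h
  cases hn : L.length with
  | zero =>
    rw [hn] at h
    exact hS z h
  | succ n =>
    rw [hn, Function.iterate_succ_apply'] at h
    exact List.mem_of_mem_filter h

end

section
variable {α β : Type} [Code α] [Code β] [DecidableEq β]

theorem poly_closQ {f : α → β → List β → Bool} {L S : α → List β}
    (hf : Poly (fun p : α × β × List β => f p.1 p.2.1 p.2.2)) (hL : Poly L) (hS : Poly S) :
    Poly (fun a => closQ (f a) (L a) (S a)) := by
  obtain ⟨P, hP⟩ := hL.size_le
  obtain ⟨Q, hQ⟩ := hS.size_le
  unfold closQ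
  refine Poly.iterate (f := fun a => (L a).length) (g := S)
    (h := fun a S => (L a).filter (fun z => decide (z ∈ S) || f a z S)) hL.length
    (PolyBdd.length hL) hS ?_ (P + Q) ?_
  · refine Poly.filter (f := fun p : α × List β => L p.1)
      (g := fun (p : α × List β) (z : β) => decide (z ∈ p.2) || f p.1 z p.2) (by fun_prop) ?_
    have h1 := hf.comp (f := fun q : (α × List β) × β => (q.1.1, q.2, q.1.2)) (by fun_prop)
    exact Poly.or (Poly.decideMem (by fun_prop) (by fun_prop)) h1
  · intro a k _
    rw [Polynomial.eval_add]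
    cases k with
    | zero =>
      have := hQ a
      simp only [Function.iterate_zero, id_eq]
      omega
    | succ k =>
      rw [Function.iterate_succ_apply']
      have h1 := ModPoly_size_sublist (List.filter_sublist (p := fun z => decide (z ∈
        (fun S => (L a).filter (fun z => decide (z ∈ S) || f a z S))^[k] (S a)) ||
        f a z ((fun S => (L a).filter (fun z => decide (z ∈ S) || f a z S))^[k] (S a))) (l := L a))
      have h2 := hP a
      omega

end

end Pool.Agent.SOV
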