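import Pool.Agent.SOF.Main

/-! Project SOV (MP_66ba69_lc, the fixed order test), module Ex: a structure exists if and only if the smallest closed
relation has no conflict. -/

set_option autoImplicit false

namespace Pool.Agent.SOV

open Pool.Agent.SOC Pool.Agent.SOD Pool.Agent.RUP Pool.Agent.SOF

variable {V : Type} [DecidableEq V] {G : SimpleGraph V} {s : List V}

omit [DecidableEq V] in
theorem gK4 {G : SimpleGraph V} {a b c d : GV V} (h : K4 (gG G) a b c d) :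
    ∃ a' b' c' d', a = GV.l a' ∧ b = GV.l b' ∧ c = GV.l c' ∧ d = GV.l d' ∧ K4 G a' b' c' d' := by
  obtain ⟨e1, e2, e3, e4, e5, e6⟩ := h
  obtain ⟨a, b, rfl, rfl, h1⟩ := gG_adj e1
  obtain ⟨c, d, rfl, rfl, h2⟩ := gG_adj e6
  exact ⟨a, b, c, d, rfl, rfl, rfl, rfl, h1, e2, e3, e4, e5, h2⟩

omit [DecidableEq V] in
theorem gSq {G : SimpleGraph V} {a b c d : GV V} (h : Sq (gG G) a b c d) :
    ∃ a' b' c' d', a = GV.l a' ∧ b = GV.l b' ∧ c = GV.l c' ∧ d = GV.l d' ∧ Sq G a' b' c' d' := by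
  obtain ⟨e1, e2, e3, e4⟩ := h
  obtain ⟨a, c, rfl, rfl, h1⟩ := gG_adj e1
  obtain ⟨b, d, rfl, rfl, h2⟩ := gG_adj e4
  exact ⟨a, b, c, d, rfl, rfl, rfl, rfl, h1, e2, e3, h2⟩

theorem gX (hs : IsEnum s) {a b c d : V} :
    CrD (gS s) (GV.l a) (GV.l b) (GV.l c) (GV.l d) ↔ CrD s a b c d := by
  unfold CrD
  rw [cross_gS hs]
  have nl : ∀ {x y : V}, (GV.l x : GV V) ≠ GV.l y ↔ x ≠ y := fun {x y} => not_congr ⟨GV.l_inj, fun e => congrArg _ e⟩
  rw [nl, nl, nl, nl, nl, nl]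

theorem gRF (hs : IsEnum s) {W : V → V → V → V → Prop} {a b c d : V}
    (h : RF (gG G) (CrD (gS s)) (gT W) (GV.l a) (GV.l b) (GV.l c) (GV.l d)) : RF G (CrD s) W a b c d := by
  rcases h with h1 | h1 | h1 | h1
  · exact Or.inl h1
  · exact Or.inr (Or.inl ((gX hs).1 h1))
  · exact Or.inr (Or.inr (Or.inl h1))
  · exact Or.inr (Or.inr (Or.inr h1))

theorem gCl (hs : IsEnum s) {W : V → V → V → V → Prop} (h : Cl G (CrD s) W) :
    Cl (gG G) (CrD (gS s)) (gT W) where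
  sw1 := by
    intro a b c d h1
    obtain ⟨a, b, c, d, rfl, rfl, rfl, rfl, h1⟩ := gT_iff h1
    exact h.sw1 h1
  sw2 := by
    intro a b c d h1
    obtain ⟨a, b, c, d, rfl, rfl, rfl, rfl, h1⟩ := gT_iff h1
    exact h.sw2 h1
  const := by
    intro p q r t pq rt hq hx hn
    obtain ⟨p, q, r, t, rfl, rfl, rfl, rfl, hq⟩ := gSq hq
    exact h.const (fun e => pq (congrArg _ e)) (fun e => rt (congrArg _ e)) hq (fun e => hx ((gX hs).2 e)) hn
  bf := by
    intro u w x y z hk xz h1 h2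
    obtain ⟨u, w, x, y, rfl, rfl, rfl, rfl, h1⟩ := gT_iff h1
    obtain ⟨u', w', y', z, e1, e2, e3, rfl, h2⟩ := gT_iff h2
    obtain rfl := GV.l_inj e1
    obtain rfl := GV.l_inj e2
    obtain rfl := GV.l_inj e3
    exact h.bf (gK5F (l := [u, w, x, y, z]) hk) (fun e => xz (congrArg _ e)) h1 h2
  bb := by
    intro u w x y z hk xz h1 h2 h3 h4 h5
    obtain ⟨u, w, x, y, rfl, rfl, rfl, rfl, h1⟩ := gT_iff h1
    obtain ⟨u', w', y', z, e1, e2, e3, rfl, h3⟩ := gK4 h3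
    obtain rfl := GV.l_inj e1
    obtain rfl := GV.l_inj e2
    obtain rfl := GV.l_inj e3
    exact h.bb (gK5F (l := [u, w, x, y, z]) hk) (fun e => xz (congrArg _ e)) h1 (gRF hs h2) h3
      (fun e => h4 ((gX hs).2 e)) (fun e => h5 ((gX hs).2 e))
  df := by
    intro a b x y x2 hk n1 h1 h2
    obtain ⟨a, x, b, y, rfl, rfl, rfl, rfl, h1⟩ := gT_iff h1
    obtain ⟨a', x2, b', x', e1, rfl, e2, e3, h2⟩ := gT_iff h2
    obtain rfl := GV.l_inj e1
    obtain rfl := GV.l_inj e2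
    obtain rfl := GV.l_inj e3
    exact h.df (gK5F (l := [a, b, x, y, x2]) hk) (fun e => n1 (congrArg _ e)) h1 h2
  db1 := by
    intro a b x y x2 hk n1 h1 h2 h3 h4 h5
    obtain ⟨a, x, b, y, rfl, rfl, rfl, rfl, h1⟩ := gT_iff h1
    obtain ⟨a', b', x', x2, e1, e2, e3, rfl, h3⟩ := gK4 h3
    obtain rfl := GV.l_inj e1
    obtain rfl := GV.l_inj e2
    obtain rfl := GV.l_inj e3
    exact h.db1 (gK5F (l := [a, b, x, y, x2]) hk) (fun e => n1 (congrArg _ e)) h1 (gRF hs h2) h3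
      (fun e => h4 ((gX hs).2 e)) (fun e => h5 ((gX hs).2 e))
  db2 := by
    intro a b x y x2 hk n1 h1 h2 h3 h4 h5
    obtain ⟨a, x, b, y, rfl, rfl, rfl, rfl, h1⟩ := gT_iff h1
    obtain ⟨a', b', x', x2, e1, e2, e3, rfl, h3⟩ := gK4 h3
    obtain rfl := GV.l_inj e1
    obtain rfl := GV.l_inj e2
    obtain rfl := GV.l_inj e3
    exact h.db2 (gK5F (l := [a, b, x, y, x2]) hk) (fun e => n1 (congrArg _ e)) h1 (gRF hs h2) h3
      (fun e => h4 ((gX hs).2 e)) (fun e => h5 ((gX hs).2 e))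
  cf := by
    intro a b x y x2 y2 hk n1 n2 n3 n4 h1 h2 h3
    obtain ⟨a, x, b, y, rfl, rfl, rfl, rfl, h1⟩ := gT_iff h1
    obtain ⟨a', x2, b', y2, e1, rfl, e2, rfl, h2⟩ := gT_iff h2
    obtain rfl := GV.l_inj e1
    obtain rfl := GV.l_inj e2
    exact h.cf (gK5F (l := [a, b, x, y, x2, y2]) hk) (fun e => n1 (congrArg _ e)) (fun e => n2 (congrArg _ e))
      (fun e => n3 (congrArg _ e)) (fun e => n4 (congrArg _ e)) h1 h2 (gRF hs h3)
  cb1 := by
    intro a b x y x2 y2 hk n1 n2 n3 n4 h1 h2 h3 h4 h5 h6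
    obtain ⟨a, x, b, y, rfl, rfl, rfl, rfl, h1⟩ := gT_iff h1
    obtain ⟨a', b', x2, y2, e1, e2, rfl, rfl, h4⟩ := gK4 h4
    obtain rfl := GV.l_inj e1
    obtain rfl := GV.l_inj e2
    exact h.cb1 (gK5F (l := [a, b, x, y, x2, y2]) hk) (fun e => n1 (congrArg _ e)) (fun e => n2 (congrArg _ e))
      (fun e => n3 (congrArg _ e)) (fun e => n4 (congrArg _ e)) h1 (gRF hs h2) (gRF hs h3) h4
      (fun e => h5 ((gX hs).2 e)) (fun e => h6 ((gX hs).2 e))
  cb2 := by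
    intro a b x y x2 y2 hk n1 n2 n3 n4 h1 h2 h3 h4 h5 h6
    obtain ⟨a, x, b, y, rfl, rfl, rfl, rfl, h1⟩ := gT_iff h1
    obtain ⟨a', b', x2, y2, e1, e2, rfl, rfl, h4⟩ := gK4 h4
    obtain rfl := GV.l_inj e1
    obtain rfl := GV.l_inj e2
    exact h.cb2 (gK5F (l := [a, b, x, y, x2, y2]) hk) (fun e => n1 (congrArg _ e)) (fun e => n2 (congrArg _ e))
      (fun e => n3 (congrArg _ e)) (fun e => n4 (congrArg _ e)) h1 (gRF hs h2) (gRF hs h3) h4
      (fun e => h5 ((gX hs).2 e)) (fun e => h6 ((gX hs).2 e))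
  k5 := by
    intro a b c d x hk h1 h2 h3
    obtain ⟨a, b, c, d, rfl, rfl, rfl, rfl, h3⟩ := gT_iff h3
    obtain ⟨e1, e2, e3, e4, e5, e6, e7, e8, e9, e10⟩ := hk
    obtain ⟨_, x, _, rfl, _⟩ := gG_adj e4
    exact h.k5 ⟨e1, e2, e3, e4, e5, e6, e7, e8, e9, e10⟩ ((gX hs).1 h1) ((gX hs).1 h2) h3

/-- no conflict with the new points -/
theorem gWF (hs : IsEnum s) (h : WF G (CrD s) (Wc G (CrD s))) :
    WF (gG G) (CrD (gS s)) (Wc (gG G) (CrD (gS s))) := by
  have le : ∀ {a b c d}, Wc (gG G) (CrD (gS s)) a b c d → gT (Wc G (CrD s)) a b c d := Wc.le (gCl hs h.cl)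
  refine ⟨crD_sepr (gS_enum hs), Wc.cl, ?_, ?_, ?_, ?_, ?_⟩
  · intro a b c d h1
    obtain ⟨a, b, c, d, rfl, rfl, rfl, rfl, h2⟩ := gT_iff (le h1)
    exact h.sq h2
  · intro a b c d h1
    obtain ⟨a, b, c, d, rfl, rfl, rfl, rfl, h2⟩ := gT_iff (le h1)
    exact fun e => h.ne h2 (GV.l_inj e)
  · intro a b c d h1
    obtain ⟨a, b, c, d, rfl, rfl, rfl, rfl, h2⟩ := gT_iff (le h1)
    exact fun e => h.nc h2 ((gX hs).1 e)
  · intro a b c d h1 h2
    have h3 := le h2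
    obtain ⟨a, b, c, d, rfl, rfl, rfl, rfl, h4⟩ := gT_iff (le h1)
    exact h.ex h4 h3
  · intro a b c d hx ab cd
    obtain ⟨a, b, rfl, rfl, ab⟩ := gG_adj ab
    obtain ⟨c, d, rfl, rfl, cd⟩ := gG_adj cd
    exact h.rig ((gX hs).1 hx) ab cd

/-- the standing assumptions hold -/
theorem gWA' (hs : IsEnum s) (h : WF G (CrD s) (Wc G (CrD s))) :
    WA (gG G) (CrD (gS s)) (Wc (gG G) (CrD (gS s))) (gS s).idxOf (GV.r 14) (GV.r 15) := by
  have hs' := gS_enum hs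
  have hw := gWF hs h
  have p14 : (gS s).idxOf (GV.r (14 : Fin 16)) = s.length + 14 := gS_inr 14
  have p15 : (gS s).idxOf (GV.r (15 : Fin 16)) = s.length + 15 := gS_inr 15
  have low : ∀ v : GV V, v ≠ GV.r 14 → v ≠ GV.r 15 → (gS s).idxOf v < s.length + 14 := by
    rintro (v | v) h1 h2
    · rw [gS_inl hs]
      have := List.idxOf_lt_length_iff.2 (hs.2 v)
      omega
    · rw [gS_inr]
      have h3 : v.val ≠ 14 := fun e => h1 (congrArg _ (Fin.ext e))
      have h4 : v.val ≠ 15 := fun e => h2 (congrArg _ (Fin.ext e))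
      have := v.2
      omega
  have inj : ∀ {a b : GV V}, (gS s).idxOf a = (gS s).idxOf b → a = b := by
    intro a b he
    by_contra hn
    exact idx_ne hs' hn he
  refine ⟨hw, fun h1 => inv hw h1, inj, ?_, ?_, ?_, ?_, ?_⟩
  · intro v hv
    obtain ⟨a, b, e, _, _⟩ := gG_adj hv
    exact absurd e (by simp)
  · intro v hv
    obtain ⟨a, b, e, _, _⟩ := gG_adj hv
    exact absurd e (by simp)
  · intro a b
    unfold CrD Cross SOC.Btw
    rw [p14, p15]
    constructor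
    · rintro ⟨⟨h1, h2, h3, h4, h5, h6⟩, h7⟩
      have la := low a h1.symm h4
      have lb := low b h3.symm h6.symm
      refine ⟨h1.symm, h4, h3.symm, h6.symm, ?_⟩
      omega
    · rintro ⟨h1, h2, h3, h4, h5⟩
      have la := low a h1 h2
      have lb := low b h3 h4
      refine ⟨⟨h1.symm, by simp, h3.symm, h2, ?_, h4.symm⟩, ?_⟩
      · rintro rfl
        omega
      · omega
  · rintro a b ⟨⟨h1, h2, h3, h4, h5, h6⟩, h7⟩
    have la := low a h2.symm h4.symm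
    have lb := low b h3.symm h5.symm
    unfold Cross SOC.Btw at h7
    rw [p14, p15] at h7
    omega
  · intro a b c d h1 h2 h3
    refine ⟨⟨?_, ?_, ?_, ?_, ?_, ?_⟩, ?_⟩
    · rintro rfl
      omega
    · rintro rfl
      omega
    · rintro rfl
      omega
    · rintro rfl
      omega
    · rintro rfl
      omega
    · rintro rfl
      omega
    · unfold Cross SOC.Btw
      omega

/-- without conflict there is a structure -/
theorem qt_of_wf (hs : IsEnum s) (h : WF G (CrD s) (Wc G (CrD s))) : ∃ T, QT G (Cross s) T := by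
  have H := gWA' hs h
  have hg : Gh (fun j => (GV.r (Fin.ofNat 16 j) : GV V)) (GV.r 14) (GV.r 15) := by
    refine ⟨?_, rfl, rfl⟩
    intro i j hi hj he
    have h1 := congrArg Fin.val (GV.r_inj he)
    simp only [Fin.val_ofNat] at h1
    omega
  have hq := qt_TP H hg
  refine ⟨fun a b c d => TP (gG G) (Wc (gG G) (CrD (gS s))) (gS s).idxOf (GV.l a) (GV.l b) (GV.l c) (GV.l d),
    hq.swap₁, hq.swap₂, fun h1 h2 => hq.ne h1 (congrArg _ h2), fun h1 => hq.adj h1, ?_, ?_, hq.notboth,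
    fun h1 h2 h3 => hq.trans h1 h2 (fun e => h3 (GV.l_inj e)), hq.ferrers⟩
  · intro a b c d h1 h2
    obtain ⟨⟨e1, e2, e3, e4⟩, _, n1, n2⟩ := TP.basic H h1
    exact hq.nocross h1 ⟨⟨n1, e1.ne, e2.ne, e3.ne, e4.ne, n2⟩, (cross_gS hs _ _ _ _).2 h2⟩
  · intro a b c d ac bd ab ad bc cd hx
    have nl : ∀ {x y : V}, x ≠ y → (GV.l x : GV V) ≠ GV.l y := fun h1 h2 => h1 (GV.l_inj h2)
    exact hq.some (a := GV.l a) (b := GV.l b) (c := GV.l c) (d := GV.l d) ac bd (nl ab) (nl ad) (nl bc) (nl cd)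
      ⟨⟨nl ac.ne, nl ab, nl ad, nl bc.symm, nl cd, nl bd.ne⟩, (cross_gS hs _ _ _ _).2 hx⟩

/-- the condition for complete graphs on five vertices is a consequence of the conditions of a structure -/
theorem qf_of_qt (hs : IsEnum s) {T : V → V → V → V → Prop} (h : QT G (Cross s) T) : QF G (CrD s) T := by
  have hX := crD_sepr hs
  refine ⟨h.swap₁, h.swap₂, h.ne, h.adj, fun h1 h2 => h.nocross h1 h2.2,
    fun h1 h2 h3 h4 h5 h6 h7 => h.some h1 h2 h3 h4 h5 h6 h7.2, h.notboth, fun _ h1 h2 h3 => h.trans h1 h2 h3,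
    fun _ h1 h2 => h.ferrers h1 h2, ?_⟩
  intro a b c d x hk h1 h2 h3
  obtain ⟨ab, ac, ad, ax, bc, bd, bx, cd, cx, dx⟩ := hk
  have sm : ∀ {a b c d : V}, G.Adj a c → G.Adj b d → CrD s a c b d → T a b c d ∨ T a d b c := by
    intro a b c d e1 e2 e3
    have d1 := hX.dist e3
    have d2 := hX.dist (hX.swap e3)
    have d3 := hX.dist (hX.comm (hX.swap (hX.comm e3)))
    have d4 := hX.dist (hX.swap (hX.comm (hX.swap (hX.comm e3))))
    exact h.some e1 e2 d1.2 d3.2 d2.2.symm d4.2 e3.2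
  have sw : ∀ {a b c d}, T a b c d → T a b d c := fun h1 => h.swap₂ (h.swap₁ (h.swap₂ h1))
  have xs : ∀ {a b c d}, CrD s a b c d → CrD s a b d c := fun h1 => hX.comm (hX.swap (hX.comm h1))
  -- one of the two orders
  have main : ∀ {a b : V}, G.Adj a b → G.Adj a c → G.Adj a d → G.Adj a x → G.Adj b c → G.Adj b d → G.Adj b x →
      CrD s a x b c → CrD s a d b x → T a b c d → T a b c x := by
    intro a b ab ac ad ax bc bd bx g1 g2 g3
    rcases sm bc.symm ax (hX.swap (hX.comm g1)) with g4 | g4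
    · rcases sm ad bx g2 with g5 | g5
      · exact h.trans g3 g5 cx.ne
      · rcases h.ferrers (h.swap₁ g4) g5 with g6 | g6
        · exact absurd g6 (h.notboth (sw g3))
        · exact absurd (h.adj (h.swap₁ (sw g6))) (G.loopless.irrefl _)
    · exact h.swap₂ g4
  have e1 : ∀ {c d : V}, a ≠ c → a ≠ d → b ≠ c → b ≠ d → c ≠ x → d ≠ x → c ≠ d → CrD s x a c d → CrD s x b c d →
      ¬ CrD s a b c d → ¬ CrD s a b c x := by
    intro c d ac ad bc bd cx dx cd h1 h2 h0 h5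
    rcases hX.add2 h5 dx.symm cd ad bd with h6 | h6
    · rcases hX.add2 h1 bd.symm bc.symm bx.ne.symm ab.ne with h7 | h7
      · -- X x a d b and X a b x d
        exact hX.amo h6 (xs (hX.swap h7))
      · exact hX.amo (xs h5) (xs (hX.swap h7))
    · exact h0 h6
  have h0 : ¬ CrD s a b c d := fun h1 => h.nocross h3 h1.2
  have e2 := e1 ac.ne ad.ne bc.ne bd.ne cx.ne dx.ne cd.ne h1 h2 h0
  have e3 := e1 ad.ne ac.ne bd.ne bc.ne dx.ne cx.ne cd.ne.symm (xs h1) (xs h2) (fun h => h0 (xs h))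
  rcases hX.one ab.ne ac.ne ax.ne bc.ne bx.ne cx.ne with h5 | h5 | h5
  · exact absurd h5 e2
  · have h6 := hX.comm h5
    refine h.swap₁ (main ab.symm bc bd bx ac ad ax h6 ?_ (h.swap₁ h3))
    rcases hX.one ab.ne.symm bd.ne bx.ne ad.ne ax.ne dx.ne with h7 | h7 | h7
    · exact absurd (hX.swap h7) e3
    · exact h7
    · exact absurd h7 (hX.add h6 (hX.swap h2))
  · refine main ab ac ad ax bc bd bx h5 ?_ h3
    rcases hX.one ab.ne ad.ne ax.ne bd.ne bx.ne dx.ne with h7 | h7 | h7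
    · exact absurd h7 e3
    · exact h7
    · exact absurd h7 (hX.add h5 (hX.swap h1))

/-- EXISTENCE THEOREM for a fixed order -/
theorem ex_iff (hs : IsEnum s) : (∃ T, QT G (Cross s) T) ↔ WF G (CrD s) (Wc G (CrD s)) :=
  ⟨fun ⟨_, h⟩ => wf_of_qf (crD_sepr hs) (qf_of_qt hs h), qt_of_wf hs⟩

end Pool.Agent.SOV
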