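import Pool.Agent.SOV.Clo
import Pool.Agent.SOC.AlgoPoly

/-! Project SOV, module Tst: the test for a fixed order, in polynomial time. The matrix `M` gives the graph, `l` the
cyclic order. The test computes the closure of the empty set of quartets and looks for a conflict. -/

set_option autoImplicit false

namespace Pool.Agent.SOV

open Pool.Agent.SOC FP

/-- quartets -/
abbrev Qd : Type := ℕ × ℕ × ℕ × ℕ

/-- `c` is between `a` and `b` in the list -/
def btwB (l : List ℕ) (a b c : ℕ) : Bool :=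
  (decide (l.idxOf a < l.idxOf c) && decide (l.idxOf c < l.idxOf b)) ||
    (decide (l.idxOf b < l.idxOf c) && decide (l.idxOf c < l.idxOf a))

/-- the chords `ab`, `cd` cross, for four different points -/
def crB (l : List ℕ) (a b c d : ℕ) : Bool :=
  (decide (a ≠ b) && (decide (a ≠ c) && (decide (a ≠ d) && (decide (b ≠ c) && (decide (b ≠ d) && decide (c ≠ d)))))) &&
    xor (btwB l a b c) (btwB l a b d)

def sqB (M : List (List Bool)) (a b c d : ℕ) : Bool := adjB M a c && (adjB M a d && (adjB M b c && adjB M b d))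

def k4B (M : List (List Bool)) (a b c d : ℕ) : Bool :=
  adjB M a b && (adjB M a c && (adjB M a d && (adjB M b c && (adjB M b d && adjB M c d))))

def k5B (M : List (List Bool)) (a b c d e : ℕ) : Bool :=
  adjB M a b && (adjB M a c && (adjB M a d && (adjB M a e && (adjB M b c && (adjB M b d && (adjB M b e &&
    (adjB M c d && (adjB M c e && adjB M d e))))))))

def k5fB (M : List (List Bool)) (l : List ℕ) : Bool :=
  !(l.any fun a => l.any fun b => l.any fun c => l.any fun d => l.any fun e => k5B M a b c d e)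

def meB (S : List Qd) (a b c d : ℕ) : Bool := decide ((a, b, c, d) ∈ S)

def rfB (M : List (List Bool)) (l : List ℕ) (S : List Qd) (p q r t : ℕ) : Bool :=
  !(sqB M p q r t) || (crB l p q r t || (meB S p r q t || meB S p t q r))

/-- the rules without another point -/
def b3 (M : List (List Bool)) (l : List ℕ) (S : List Qd) (p q r t : ℕ) : Bool :=
  meB S q p r t || (meB S r t p q ||
    (decide (p ≠ q) && (decide (r ≠ t) && (sqB M p q r t && (!(crB l p q r t) && !(adjB M p q))))))

def b4 (M : List (List Bool)) (S : List Qd) (p q r t y : ℕ) : Bool :=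
  k5fB M [p, q, r, y, t] && (decide (r ≠ t) && (meB S p q r y && meB S p q y t))

def b5 (M : List (List Bool)) (l : List ℕ) (S : List Qd) (p q r t x : ℕ) : Bool :=
  k5fB M [p, r, x, q, t] && (decide (x ≠ t) && (meB S p r x q && (rfB M l S p r x t && (k4B M p r q t &&
    (!(crB l p r q t) && !(crB l p q r t))))))

def b6 (M : List (List Bool)) (S : List Qd) (p q r t x : ℕ) : Bool :=
  k5fB M [p, r, x, t, q] && (decide (q ≠ t) && (meB S p x r t && meB S p q r x))

def b7 (M : List (List Bool)) (l : List ℕ) (S : List Qd) (p q r t y : ℕ) : Bool :=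
  k5fB M [p, q, t, y, r] && (decide (r ≠ y) && (meB S p t q y && (rfB M l S p r q y && (k4B M p q t r &&
    (!(crB l p r q t) && !(crB l p q r t))))))

def b8 (M : List (List Bool)) (l : List ℕ) (S : List Qd) (p q r t y : ℕ) : Bool :=
  k5fB M [p, r, q, y, t] && (decide (t ≠ y) && (meB S p q r y && (rfB M l S p t r y && (k4B M p r q t &&
    (!(crB l p t r q) && !(crB l p q r t))))))

def b9 (M : List (List Bool)) (l : List ℕ) (S : List Qd) (p q r t x y : ℕ) : Bool :=
  k5fB M [p, r, x, t, q, y] && (decide (x ≠ q) && (decide (x ≠ y) && (decide (t ≠ q) && (decide (t ≠ y) &&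
    (meB S p x r t && (meB S p q r y && rfB M l S p x r y))))))

def b10 (M : List (List Bool)) (l : List ℕ) (S : List Qd) (p q r t x y : ℕ) : Bool :=
  k5fB M [p, q, x, y, r, t] && (decide (x ≠ r) && (decide (x ≠ t) && (decide (y ≠ r) && (decide (y ≠ t) &&
    (meB S p x q y && (rfB M l S p x q t && (rfB M l S p r q y && (k4B M p q r t &&
      (!(crB l p r q t) && !(crB l p q r t))))))))))

def b11 (M : List (List Bool)) (l : List ℕ) (S : List Qd) (p q r t x y : ℕ) : Bool :=
  k5fB M [p, r, x, y, t, q] && (decide (x ≠ t) && (decide (x ≠ q) && (decide (y ≠ t) && (decide (y ≠ q) &&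
    (meB S p x r y && (rfB M l S p x r q && (rfB M l S p t r y && (k4B M p r t q &&
      (!(crB l p t r q) && !(crB l p q r t))))))))))

def b12 (M : List (List Bool)) (l : List ℕ) (S : List Qd) (p q r t d : ℕ) : Bool :=
  k5B M p q r d t && (crB l t p r d && (crB l t q r d && meB S p q r d))

/-- the rules with one more point -/
def bOne (M : List (List Bool)) (l : List ℕ) (S : List Qd) (p q r t x : ℕ) : Bool :=
  b4 M S p q r t x || (b5 M l S p q r t x || (b6 M S p q r t x || (b7 M l S p q r t x || (b8 M l S p q r t x ||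
    b12 M l S p q r t x))))

/-- the rules with two more points -/
def bTwo (M : List (List Bool)) (l : List ℕ) (S : List Qd) (p q r t x y : ℕ) : Bool :=
  b9 M l S p q r t x y || (b10 M l S p q r t x y || b11 M l S p q r t x y)

/-- one step of the closure -/
def stepB (M : List (List Bool)) (l : List ℕ) (z : Qd) (S : List Qd) : Bool :=
  b3 M l S z.1 z.2.1 z.2.2.1 z.2.2.2 || ((l.any fun x => bOne M l S z.1 z.2.1 z.2.2.1 z.2.2.2 x) ||
    (l.any fun x => l.any fun y => bTwo M l S z.1 z.2.1 z.2.2.1 z.2.2.2 x y))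

/-- all quartets -/
def quads (l : List ℕ) : List Qd := l.flatMap fun a => l.flatMap fun b => l.flatMap fun c => l.map fun d => (a, b, c, d)

/-- the closure -/
def cloB (M : List (List Bool)) (l : List ℕ) : List Qd := closQ (stepB M l) (quads l) []

/-- no conflict in the closure -/
def confB (M : List (List Bool)) (l : List ℕ) (S : List Qd) (z : Qd) : Bool :=
  sqB M z.1 z.2.1 z.2.2.1 z.2.2.2 && (decide (z.1 ≠ z.2.1) && (!(crB l z.1 z.2.1 z.2.2.1 z.2.2.2) &&
    !(meB S z.1 z.2.2.1 z.2.1 z.2.2.2)))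

/-- crossing edges are opposite edges of a 4-cycle -/
def rigB (M : List (List Bool)) (l : List ℕ) (z : Qd) : Bool :=
  !(crB l z.1 z.2.1 z.2.2.1 z.2.2.2 && (adjB M z.1 z.2.1 && adjB M z.2.2.1 z.2.2.2)) ||
    ((adjB M z.1 z.2.2.2 && adjB M z.2.2.1 z.2.1) || (adjB M z.1 z.2.2.1 && adjB M z.2.2.2 z.2.1))

/-- THE FIXED ORDER TEST -/
def tOk (M : List (List Bool)) (l : List ℕ) : Bool :=
  ((cloB M l).all fun z => confB M l (cloB M l) z) && (quads l).all fun z => rigB M l z

/-! ### polynomial time -/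

section
variable {α : Type} [Code α] {M : α → List (List Bool)} {l : α → List ℕ} {S : α → List Qd}
  {a b c d e x : α → ℕ}

theorem poly_btwB (hl : Poly l) (ha : Poly a) (hb : Poly b) (hc : Poly c) :
    Poly (fun p => btwB (l p) (a p) (b p) (c p)) := by
  unfold btwB
  fun_prop

theorem poly_crB (hl : Poly l) (ha : Poly a) (hb : Poly b) (hc : Poly c) (hd : Poly d) :
    Poly (fun p => crB (l p) (a p) (b p) (c p) (d p)) := by
  unfold crB
  exact Poly.and (by fun_prop) (Poly.xor (poly_btwB hl ha hb hc) (poly_btwB hl ha hb hd))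

theorem poly_sqB (hM : Poly M) (ha : Poly a) (hb : Poly b) (hc : Poly c) (hd : Poly d) :
    Poly (fun p => sqB (M p) (a p) (b p) (c p) (d p)) := by
  unfold sqB
  exact Poly.and (AlgoPoly_adjB hM ha hc) (Poly.and (AlgoPoly_adjB hM ha hd) (Poly.and (AlgoPoly_adjB hM hb hc)
    (AlgoPoly_adjB hM hb hd)))

theorem poly_k4B (hM : Poly M) (ha : Poly a) (hb : Poly b) (hc : Poly c) (hd : Poly d) :
    Poly (fun p => k4B (M p) (a p) (b p) (c p) (d p)) := by
  unfold k4B
  exact Poly.and (AlgoPoly_adjB hM ha hb) (Poly.and (AlgoPoly_adjB hM ha hc) (Poly.and (AlgoPoly_adjB hM ha hd)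
    (Poly.and (AlgoPoly_adjB hM hb hc) (Poly.and (AlgoPoly_adjB hM hb hd) (AlgoPoly_adjB hM hc hd)))))

theorem poly_k5B (hM : Poly M) (ha : Poly a) (hb : Poly b) (hc : Poly c) (hd : Poly d) (he : Poly e) :
    Poly (fun p => k5B (M p) (a p) (b p) (c p) (d p) (e p)) := by
  unfold k5B
  exact Poly.and (AlgoPoly_adjB hM ha hb) (Poly.and (AlgoPoly_adjB hM ha hc) (Poly.and (AlgoPoly_adjB hM ha hd)
    (Poly.and (AlgoPoly_adjB hM ha he) (Poly.and (AlgoPoly_adjB hM hb hc) (Poly.and (AlgoPoly_adjB hM hb hd)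
    (Poly.and (AlgoPoly_adjB hM hb he) (Poly.and (AlgoPoly_adjB hM hc hd) (Poly.and (AlgoPoly_adjB hM hc he)
    (AlgoPoly_adjB hM hd he)))))))))

theorem poly_k5fB (hM : Poly M) (hl : Poly l) : Poly (fun p => k5fB (M p) (l p)) := by
  unfold k5fB
  refine Poly.not ?_
  refine Poly.any (f := l) (g := fun p a => (l p).any fun b => (l p).any fun c => (l p).any fun d => (l p).any fun e =>
    k5B (M p) a b c d e) hl ?_
  refine Poly.any (f := fun p : α × ℕ => l p.1) (g := fun (p : α × ℕ) b => (l p.1).any fun c => (l p.1).any fun d =>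
    (l p.1).any fun e => k5B (M p.1) p.2 b c d e) (by fun_prop) ?_
  refine Poly.any (f := fun p : (α × ℕ) × ℕ => l p.1.1) (g := fun (p : (α × ℕ) × ℕ) c => (l p.1.1).any fun d =>
    (l p.1.1).any fun e => k5B (M p.1.1) p.1.2 p.2 c d e) (by fun_prop) ?_
  refine Poly.any (f := fun p : ((α × ℕ) × ℕ) × ℕ => l p.1.1.1) (g := fun (p : ((α × ℕ) × ℕ) × ℕ) d =>
    (l p.1.1.1).any fun e => k5B (M p.1.1.1) p.1.1.2 p.1.2 p.2 d e) (by fun_prop) ?_
  refine Poly.any (f := fun p : (((α × ℕ) × ℕ) × ℕ) × ℕ => l p.1.1.1.1) (g := fun (p : (((α × ℕ) × ℕ) × ℕ) × ℕ) e =>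
    k5B (M p.1.1.1.1) p.1.1.1.2 p.1.1.2 p.1.2 p.2 e) (by fun_prop) ?_
  exact poly_k5B (by fun_prop) (by fun_prop) (by fun_prop) (by fun_prop) (by fun_prop) (by fun_prop)

theorem poly_meB (hS : Poly S) (ha : Poly a) (hb : Poly b) (hc : Poly c) (hd : Poly d) :
    Poly (fun p => meB (S p) (a p) (b p) (c p) (d p)) := by
  unfold meB
  exact (Poly.decideMem (f := fun p => (a p, b p, c p, d p)) (by fun_prop) hS).congr
    (fun p => decide_eq_decide.2 Iff.rfl)

theorem poly_rfB (hM : Poly M) (hl : Poly l) (hS : Poly S) (ha : Poly a) (hb : Poly b) (hc : Poly c) (hd : Poly d) :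
    Poly (fun p => rfB (M p) (l p) (S p) (a p) (b p) (c p) (d p)) := by
  unfold rfB
  exact Poly.or (Poly.not (poly_sqB hM ha hb hc hd)) (Poly.or (poly_crB hl ha hb hc hd)
    (Poly.or (poly_meB hS ha hc hb hd) (poly_meB hS ha hd hb hc)))

theorem poly_ne (ha : Poly a) (hb : Poly b) : Poly (fun p => decide (a p ≠ b p)) := by fun_prop

variable {p q r t y : α → ℕ}

theorem poly_l5 (hp : Poly p) (hq : Poly q) (hr : Poly r) (ht : Poly t) (hx : Poly x) :
    Poly (fun w => [p w, q w, r w, t w, x w]) := by fun_prop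

theorem poly_l6 (hp : Poly p) (hq : Poly q) (hr : Poly r) (ht : Poly t) (hx : Poly x) (hy : Poly y) :
    Poly (fun w => [p w, q w, r w, t w, x w, y w]) := by fun_prop

theorem poly_b3 (hM : Poly M) (hl : Poly l) (hS : Poly S) (hp : Poly p) (hq : Poly q) (hr : Poly r) (ht : Poly t) :
    Poly (fun w => b3 (M w) (l w) (S w) (p w) (q w) (r w) (t w)) := by
  unfold b3
  exact Poly.or (poly_meB hS hq hp hr ht) (Poly.or (poly_meB hS hr ht hp hq) (Poly.and (poly_ne hp hq)
    (Poly.and (poly_ne hr ht) (Poly.and (poly_sqB hM hp hq hr ht) (Poly.and (Poly.not (poly_crB hl hp hq hr ht))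
      (Poly.not (AlgoPoly_adjB hM hp hq)))))))

theorem poly_b4 (hM : Poly M) (hS : Poly S) (hp : Poly p) (hq : Poly q) (hr : Poly r) (ht : Poly t)
    (hx : Poly x) : Poly (fun w => b4 (M w) (S w) (p w) (q w) (r w) (t w) (x w)) := by
  unfold b4
  exact Poly.and (poly_k5fB hM (poly_l5 hp hq hr hx ht)) (Poly.and (poly_ne hr ht) (Poly.and (poly_meB hS hp hq hr hx)
    (poly_meB hS hp hq hx ht)))

theorem poly_b5 (hM : Poly M) (hl : Poly l) (hS : Poly S) (hp : Poly p) (hq : Poly q) (hr : Poly r) (ht : Poly t)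
    (hx : Poly x) : Poly (fun w => b5 (M w) (l w) (S w) (p w) (q w) (r w) (t w) (x w)) := by
  unfold b5
  exact Poly.and (poly_k5fB hM (poly_l5 hp hr hx hq ht)) (Poly.and (poly_ne hx ht) (Poly.and (poly_meB hS hp hr hx hq)
    (Poly.and (poly_rfB hM hl hS hp hr hx ht) (Poly.and (poly_k4B hM hp hr hq ht)
      (Poly.and (Poly.not (poly_crB hl hp hr hq ht)) (Poly.not (poly_crB hl hp hq hr ht)))))))

theorem poly_b6 (hM : Poly M) (hS : Poly S) (hp : Poly p) (hq : Poly q) (hr : Poly r) (ht : Poly t)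
    (hx : Poly x) : Poly (fun w => b6 (M w) (S w) (p w) (q w) (r w) (t w) (x w)) := by
  unfold b6
  exact Poly.and (poly_k5fB hM (poly_l5 hp hr hx ht hq)) (Poly.and (poly_ne hq ht) (Poly.and (poly_meB hS hp hx hr ht)
    (poly_meB hS hp hq hr hx)))

theorem poly_b7 (hM : Poly M) (hl : Poly l) (hS : Poly S) (hp : Poly p) (hq : Poly q) (hr : Poly r) (ht : Poly t)
    (hx : Poly x) : Poly (fun w => b7 (M w) (l w) (S w) (p w) (q w) (r w) (t w) (x w)) := by
  unfold b7
  exact Poly.and (poly_k5fB hM (poly_l5 hp hq ht hx hr)) (Poly.and (poly_ne hr hx) (Poly.and (poly_meB hS hp ht hq hx)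
    (Poly.and (poly_rfB hM hl hS hp hr hq hx) (Poly.and (poly_k4B hM hp hq ht hr)
      (Poly.and (Poly.not (poly_crB hl hp hr hq ht)) (Poly.not (poly_crB hl hp hq hr ht)))))))

theorem poly_b8 (hM : Poly M) (hl : Poly l) (hS : Poly S) (hp : Poly p) (hq : Poly q) (hr : Poly r) (ht : Poly t)
    (hx : Poly x) : Poly (fun w => b8 (M w) (l w) (S w) (p w) (q w) (r w) (t w) (x w)) := by
  unfold b8
  exact Poly.and (poly_k5fB hM (poly_l5 hp hr hq hx ht)) (Poly.and (poly_ne ht hx) (Poly.and (poly_meB hS hp hq hr hx)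
    (Poly.and (poly_rfB hM hl hS hp ht hr hx) (Poly.and (poly_k4B hM hp hr hq ht)
      (Poly.and (Poly.not (poly_crB hl hp ht hr hq)) (Poly.not (poly_crB hl hp hq hr ht)))))))

theorem poly_b9 (hM : Poly M) (hl : Poly l) (hS : Poly S) (hp : Poly p) (hq : Poly q) (hr : Poly r) (ht : Poly t)
    (hx : Poly x) (hy : Poly y) : Poly (fun w => b9 (M w) (l w) (S w) (p w) (q w) (r w) (t w) (x w) (y w)) := by
  unfold b9
  exact Poly.and (poly_k5fB hM (poly_l6 hp hr hx ht hq hy)) (Poly.and (poly_ne hx hq) (Poly.and (poly_ne hx hy)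
    (Poly.and (poly_ne ht hq) (Poly.and (poly_ne ht hy) (Poly.and (poly_meB hS hp hx hr ht)
      (Poly.and (poly_meB hS hp hq hr hy) (poly_rfB hM hl hS hp hx hr hy)))))))

theorem poly_b10 (hM : Poly M) (hl : Poly l) (hS : Poly S) (hp : Poly p) (hq : Poly q) (hr : Poly r) (ht : Poly t)
    (hx : Poly x) (hy : Poly y) : Poly (fun w => b10 (M w) (l w) (S w) (p w) (q w) (r w) (t w) (x w) (y w)) := by
  unfold b10
  exact Poly.and (poly_k5fB hM (poly_l6 hp hq hx hy hr ht)) (Poly.and (poly_ne hx hr) (Poly.and (poly_ne hx ht)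
    (Poly.and (poly_ne hy hr) (Poly.and (poly_ne hy ht) (Poly.and (poly_meB hS hp hx hq hy)
      (Poly.and (poly_rfB hM hl hS hp hx hq ht) (Poly.and (poly_rfB hM hl hS hp hr hq hy)
        (Poly.and (poly_k4B hM hp hq hr ht) (Poly.and (Poly.not (poly_crB hl hp hr hq ht))
          (Poly.not (poly_crB hl hp hq hr ht)))))))))))

theorem poly_b11 (hM : Poly M) (hl : Poly l) (hS : Poly S) (hp : Poly p) (hq : Poly q) (hr : Poly r) (ht : Poly t)
    (hx : Poly x) (hy : Poly y) : Poly (fun w => b11 (M w) (l w) (S w) (p w) (q w) (r w) (t w) (x w) (y w)) := by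
  unfold b11
  exact Poly.and (poly_k5fB hM (poly_l6 hp hr hx hy ht hq)) (Poly.and (poly_ne hx ht) (Poly.and (poly_ne hx hq)
    (Poly.and (poly_ne hy ht) (Poly.and (poly_ne hy hq) (Poly.and (poly_meB hS hp hx hr hy)
      (Poly.and (poly_rfB hM hl hS hp hx hr hq) (Poly.and (poly_rfB hM hl hS hp ht hr hy)
        (Poly.and (poly_k4B hM hp hr ht hq) (Poly.and (Poly.not (poly_crB hl hp ht hr hq))
          (Poly.not (poly_crB hl hp hq hr ht)))))))))))

theorem poly_b12 (hM : Poly M) (hl : Poly l) (hS : Poly S) (hp : Poly p) (hq : Poly q) (hr : Poly r) (ht : Poly t)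
    (hx : Poly x) : Poly (fun w => b12 (M w) (l w) (S w) (p w) (q w) (r w) (t w) (x w)) := by
  unfold b12
  exact Poly.and (poly_k5B hM hp hq hr hx ht) (Poly.and (poly_crB hl ht hp hr hx) (Poly.and (poly_crB hl ht hq hr hx)
    (poly_meB hS hp hq hr hx)))

theorem poly_bOne (hM : Poly M) (hl : Poly l) (hS : Poly S) (hp : Poly p) (hq : Poly q) (hr : Poly r) (ht : Poly t)
    (hx : Poly x) : Poly (fun w => bOne (M w) (l w) (S w) (p w) (q w) (r w) (t w) (x w)) := by
  unfold bOne
  exact Poly.or (poly_b4 hM hS hp hq hr ht hx) (Poly.or (poly_b5 hM hl hS hp hq hr ht hx)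
    (Poly.or (poly_b6 hM hS hp hq hr ht hx) (Poly.or (poly_b7 hM hl hS hp hq hr ht hx)
      (Poly.or (poly_b8 hM hl hS hp hq hr ht hx) (poly_b12 hM hl hS hp hq hr ht hx)))))

theorem poly_bTwo (hM : Poly M) (hl : Poly l) (hS : Poly S) (hp : Poly p) (hq : Poly q) (hr : Poly r) (ht : Poly t)
    (hx : Poly x) (hy : Poly y) : Poly (fun w => bTwo (M w) (l w) (S w) (p w) (q w) (r w) (t w) (x w) (y w)) := by
  unfold bTwo
  exact Poly.or (poly_b9 hM hl hS hp hq hr ht hx hy) (Poly.or (poly_b10 hM hl hS hp hq hr ht hx hy)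
    (poly_b11 hM hl hS hp hq hr ht hx hy))

theorem poly_stepB {z : α → Qd} (hM : Poly M) (hl : Poly l) (hz : Poly z) (hS : Poly S) :
    Poly (fun w => stepB (M w) (l w) (z w) (S w)) := by
  unfold stepB
  refine Poly.or (poly_b3 hM hl hS (by fun_prop) (by fun_prop) (by fun_prop) (by fun_prop)) (Poly.or ?_ ?_)
  · refine Poly.any (f := l) (g := fun w x => bOne (M w) (l w) (S w) (z w).1 (z w).2.1 (z w).2.2.1 (z w).2.2.2 x) hl ?_
    exact poly_bOne (by fun_prop) (by fun_prop) (by fun_prop) (by fun_prop) (by fun_prop) (by fun_prop) (by fun_prop)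
      (by fun_prop)
  · refine Poly.any (f := l) (g := fun w x => (l w).any fun y => bTwo (M w) (l w) (S w) (z w).1 (z w).2.1 (z w).2.2.1
      (z w).2.2.2 x y) hl ?_
    refine Poly.any (f := fun w : α × ℕ => l w.1) (g := fun (w : α × ℕ) y => bTwo (M w.1) (l w.1) (S w.1) (z w.1).1
      (z w.1).2.1 (z w.1).2.2.1 (z w.1).2.2.2 w.2 y) (by fun_prop) ?_
    exact poly_bTwo (by fun_prop) (by fun_prop) (by fun_prop) (by fun_prop) (by fun_prop) (by fun_prop) (by fun_prop)
      (by fun_prop) (by fun_prop)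

theorem poly_quads (hl : Poly l) : Poly (fun w => quads (l w)) := by
  unfold quads
  refine Poly.flatMap (f := l) (g := fun w a => (l w).flatMap fun b => (l w).flatMap fun c => (l w).map fun d =>
    (a, b, c, d)) hl ?_
  refine Poly.flatMap (f := fun w : α × ℕ => l w.1) (g := fun (w : α × ℕ) b => (l w.1).flatMap fun c =>
    (l w.1).map fun d => (w.2, b, c, d)) (by fun_prop) ?_
  refine Poly.flatMap (f := fun w : (α × ℕ) × ℕ => l w.1.1) (g := fun (w : (α × ℕ) × ℕ) c =>
    (l w.1.1).map fun d => (w.1.2, w.2, c, d)) (by fun_prop) ?_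
  exact FP.Poly.map (f := fun w : ((α × ℕ) × ℕ) × ℕ => l w.1.1.1) (g := fun (w : ((α × ℕ) × ℕ) × ℕ) d =>
    (w.1.1.2, w.1.2, w.2, d)) (by fun_prop) (by fun_prop)

theorem poly_cloB (hM : Poly M) (hl : Poly l) : Poly (fun w => cloB (M w) (l w)) := by
  unfold cloB
  refine poly_closQ (f := fun w => stepB (M w) (l w)) (L := fun w => quads (l w)) (S := fun _ => []) ?_
    (poly_quads hl) (FP.Poly.const [])
  exact poly_stepB (by fun_prop) (by fun_prop) (by fun_prop) (by fun_prop)

/-- the fixed order test runs in polynomial time -/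
theorem poly_tOk (hM : Poly M) (hl : Poly l) : Poly (fun w => tOk (M w) (l w)) := by
  unfold tOk
  have h := poly_cloB hM hl
  refine Poly.and ?_ ?_
  · refine Poly.all (f := fun w => cloB (M w) (l w)) (g := fun w z => confB (M w) (l w) (cloB (M w) (l w)) z) h ?_
    unfold confB
    have h' : Poly (fun w : α × Qd => cloB (M w.1) (l w.1)) := h.comp Poly.fst'
    exact Poly.and (poly_sqB (by fun_prop) (by fun_prop) (by fun_prop) (by fun_prop) (by fun_prop))
      (Poly.and (poly_ne (by fun_prop) (by fun_prop)) (Poly.and (Poly.not (poly_crB (by fun_prop) (by fun_prop)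
        (by fun_prop) (by fun_prop) (by fun_prop))) (Poly.not (poly_meB h' (by fun_prop) (by fun_prop)
          (by fun_prop) (by fun_prop)))))
  · refine Poly.all (f := fun w => quads (l w)) (g := fun w z => rigB (M w) (l w) z) (poly_quads hl) ?_
    unfold rigB
    have ad : ∀ {i j : α × Qd → ℕ}, Poly i → Poly j → Poly (fun w : α × Qd => adjB (M w.1) (i w) (j w)) :=
      fun hi hj => AlgoPoly_adjB (by fun_prop) hi hj
    exact Poly.or (Poly.not (Poly.and (poly_crB (by fun_prop) (by fun_prop) (by fun_prop) (by fun_prop) (by fun_prop))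
      (Poly.and (ad (by fun_prop) (by fun_prop)) (ad (by fun_prop) (by fun_prop)))))
      (Poly.or (Poly.and (ad (by fun_prop) (by fun_prop)) (ad (by fun_prop) (by fun_prop)))
        (Poly.and (ad (by fun_prop) (by fun_prop)) (ad (by fun_prop) (by fun_prop))))

end

end Pool.Agent.SOV
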